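import Pool.Agent.Q32.RD.Stm
set_option autoImplicit false

namespace Q32.RD

universe u

namespace BG

variable {V : Type u} [CommRing V] {B Y : Type u} [AddCommGroup Y] [Module V Y]
  (π : (B →₀ V) →ₗ[V] Y) (s : Y →ₗ[V] (B →₀ V)) (hs : ∀ y, s y ∈ LinearMap.ker π)
  (r : LinearMap.ker π →ₗ[V] Y)

/-- supported -/
noncomputable abbrev PP (V : Type u) [CommRing V] {B : Type u} (C : Set B) : Submodule V (B →₀ V) :=
  Finsupp.supported V V C

/-- image -/
noncomputable abbrev YY (C : Set B) : Submodule V Y := (PP V C).map π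

/-- closedness -/
def Cl (C : Set B) : Prop :=
  (∀ y ∈ YY π C, s y ∈ PP V C) ∧ ∀ (x : LinearMap.ker π), (x : B →₀ V) ∈ PP V C → r x ∈ YY π C

open Classical in
/-- the projection away from `C` -/
noncomputable def sh (C : Set B) : Y →ₗ[V] (B →₀ V) :=
  (PP V Cᶜ).subtype ∘ₗ (Finsupp.restrictDom V V Cᶜ) ∘ₗ s

theorem sh_eq_zero (C : Set B) (y : Y) : sh s C y = 0 ↔ s y ∈ PP V C := by
  classical
  simp only [sh, LinearMap.comp_apply, Submodule.subtype_apply, Finsupp.restrictDom_apply,
    Finsupp.mem_supported]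
  rw [Finsupp.filter_eq_zero_iff]
  constructor
  · intro h b hb
    by_contra hc
    exact (Finsupp.mem_support_iff.1 hb) (h b hc)
  · intro h b hb
    by_contra hc
    exact hb (h (Finsupp.mem_support_iff.2 hc))

variable {π s r}

theorem sh_zero_iff (hr : ∀ y, r ⟨s y, hs y⟩ = y) {C : Set B} (hC : Cl π s r C) (y : Y) :
    sh s C y = 0 ↔ y ∈ YY π C := by
  rw [sh_eq_zero]
  constructor
  · intro h
    have := hC.2 ⟨s y, hs y⟩ h
    rwa [hr y] at this
  · intro h
    exact hC.1 y h

/-- section over a countably generated piece -/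
theorem sec (hCG : S_CG.{u}) (hV : ∀ v : V, v * v = v) (C : Set B) (hC : C.Countable)
    (hne : C.Nonempty) (θ : (B →₀ V) →ₗ[V] (B →₀ V)) :
    ∃ τ : (PP V C).map θ →ₗ[V] (B →₀ V), (∀ x, τ x ∈ PP V C) ∧ ∀ x, θ (τ x) = x := by
  obtain ⟨c, rfl⟩ := hC.exists_eq_range hne
  have hspan : (PP V (Set.range c)).map θ =
      Submodule.span V (Set.range fun n => θ (Finsupp.single (c n) 1)) := by
    rw [PP, Finsupp.supported_eq_span_single, Submodule.map_span, ← Set.range_comp,
      ← Set.range_comp]
    rfl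
  have hproj : Module.Projective V ((PP V (Set.range c)).map θ) := by
    rw [hspan]
    exact hCG V hV B _
  let θ' : PP V (Set.range c) →ₗ[V] (PP V (Set.range c)).map θ :=
    (θ.domRestrict _).codRestrict _ (fun x => ⟨x.1, x.2, rfl⟩)
  have hsurj : Function.Surjective θ' := by
    rintro ⟨y, x, hx, rfl⟩
    exact ⟨⟨x, hx⟩, rfl⟩
  obtain ⟨t, ht⟩ := Module.projective_lifting_property θ' LinearMap.id hsurj
  refine ⟨(PP V (Set.range c)).subtype ∘ₗ t, fun x => (t x).2, fun x => ?_⟩
  have := congrArg Subtype.val (congrArg (fun g => g x) ht)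
  exact this

/-- the closing step -/
theorem step (hCG : S_CG.{u}) (hV : ∀ v : V, v * v = v) (hr : ∀ y, r ⟨s y, hs y⟩ = y)
    (hπ : Function.Surjective π)
    {B' : Set B} (hB' : Cl π s r B') (C : Set B) (hC : C.Countable) (hne : C.Nonempty) :
    ∃ C' : Set B, C'.Countable ∧ C ⊆ C' ∧ (∀ c ∈ C, s (π (Finsupp.single c 1)) ∈ PP V (B' ∪ C')) ∧
      ∀ x : LinearMap.ker π, (x : B →₀ V) ∈ PP V (B' ∪ C) → r x ∈ YY π (B' ∪ C') := by
  classical
  obtain ⟨θ, hθ⟩ : ∃ θ : (B →₀ V) →ₗ[V] (B →₀ V), θ = sh s B' ∘ₗ π := ⟨_, rfl⟩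
  obtain ⟨τ, hτ1, hτ2⟩ := sec hCG hV C hC hne θ
  have hmem : ∀ c : C, θ (Finsupp.single (c : B) 1) ∈ (PP V C).map θ := fun c =>
    ⟨_, Finsupp.single_mem_supported V _ c.2, rfl⟩
  let gc : C → (B →₀ V) := fun c => Finsupp.single (c : B) 1 - τ ⟨_, hmem c⟩
  have hgc : ∀ c, ∃ x ∈ PP V B', π x = π (gc c) := by
    intro c
    have h0 : θ (gc c) = 0 := by
      simp only [gc, map_sub, hτ2, sub_self]
    rw [hθ] at h0
    have h1 : π (gc c) ∈ YY π B' := (sh_zero_iff hs hr hB' _).1 h0
    obtain ⟨x, hx, hx'⟩ := h1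
    exact ⟨x, hx, hx'⟩
  choose xc hxc1 hxc2 using hgc
  let kc : C → LinearMap.ker π := fun c => ⟨gc c - xc c, by
    simp [LinearMap.mem_ker, hxc2 c]⟩
  choose zc hzc using fun c => hπ (r (kc c))
  refine ⟨C ∪ ((⋃ c : C, ((s (π (Finsupp.single (c : B) 1))).support : Set B)) ∪
    ⋃ c : C, ((zc c).support : Set B)), ?_, ?_, ?_, ?_⟩
  · have := hC.to_subtype
    refine hC.union (Set.Countable.union ?_ ?_)
    · exact Set.countable_iUnion fun c => (Finset.finite_toSet _).countable
    · exact Set.countable_iUnion fun c => (Finset.finite_toSet _).countable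
  · exact Set.subset_union_left
  · intro c hc
    rw [Finsupp.mem_supported]
    intro b hb
    right; right; left
    simp only [Set.mem_iUnion]
    exact ⟨⟨c, hc⟩, hb⟩
  · intro x hx
    set C' := C ∪ ((⋃ c : C, ((s (π (Finsupp.single (c : B) 1))).support : Set B)) ∪
      ⋃ c : C, ((zc c).support : Set B)) with hC'
    have hx' : (x : B →₀ V) ∈ PP V B' ⊔ PP V C := by
      rw [← Finsupp.supported_union]
      exact hx
    obtain ⟨x2, hx2, x1, hx1, hxx⟩ := Submodule.mem_sup.1 hx'
    -- `θ x1 = 0`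
    have hθ1 : θ x1 = 0 := by
      have h1 : π x1 = - π x2 := by
        have : π (x : B →₀ V) = 0 := x.2
        rw [← hxx, map_add] at this
        exact eq_neg_of_add_eq_zero_right this
      have h2 : sh s B' (π x2) = 0 := (sh_zero_iff hs hr hB' _).2 ⟨x2, hx2, rfl⟩
      simp [hθ, h1, h2]
    -- expansion of x1
    let x1' : C →₀ V := Finsupp.subtypeDomain (· ∈ C) x1
    have hx1' : x1 = ∑ c ∈ x1'.support, x1' c • Finsupp.single (c : B) (1 : V) := by
      ext b
      by_cases hb : b ∈ C
      · rw [Finsupp.finsetSum_apply, Finset.sum_eq_single (⟨b, hb⟩ : C)]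
        · simp [x1']
        · intro c _ hcb
          have : (c : B) ≠ b := fun h => hcb (Subtype.ext h)
          simp [this]
        · intro h
          simp only [Finsupp.mem_support_iff, not_not] at h
          simp [h]
      · have h0 : x1 b = 0 := by
          by_contra h
          exact hb ((Finsupp.mem_supported V x1).1 hx1 (Finsupp.mem_support_iff.2 h))
        rw [h0, Finsupp.finsetSum_apply, Finset.sum_eq_zero]
        intro c _
        have : (c : B) ≠ b := fun h => hb (h ▸ c.2)
        simp [this]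
    have hsum : x1 = ∑ c ∈ x1'.support, x1' c • gc c := by
      have h1 : (∑ c ∈ x1'.support, x1' c • (⟨θ (Finsupp.single (c : B) 1), hmem c⟩ :
          (PP V C).map θ)) = 0 := by
        apply Subtype.ext
        simp only [Submodule.coe_sum, Submodule.coe_smul, Submodule.coe_zero]
        rw [← hθ1]
        conv_rhs => rw [hx1', map_sum]
        refine Finset.sum_congr rfl fun c _ => ?_
        rw [map_smul]
      have h2 : ∑ c ∈ x1'.support, x1' c • τ ⟨_, hmem c⟩ = 0 := by
        have := congrArg τ h1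
        rw [map_sum, map_zero] at this
        rw [← this]
        refine Finset.sum_congr rfl fun c _ => ?_
        rw [map_smul]
      simp only [gc, smul_sub, Finset.sum_sub_distrib, h2, sub_zero]
      exact hx1'
    have hdec : x = ∑ c ∈ x1'.support, x1' c • kc c +
        ⟨x2 + ∑ c ∈ x1'.support, x1' c • xc c, by
          have h1 : π (x : B →₀ V) = 0 := x.2
          rw [← hxx, map_add, hsum, map_sum] at h1
          simp only [LinearMap.mem_ker, map_add, map_sum, map_smul, hxc2]
          simpa using h1⟩ := by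
      apply Subtype.ext
      simp only [Submodule.coe_add, Submodule.coe_sum, Submodule.coe_smul, kc, smul_sub,
        Finset.sum_sub_distrib, ← hsum]
      rw [← hxx]
      abel
    rw [hdec, map_add, map_sum]
    refine add_mem (sum_mem fun c _ => ?_) ?_
    · rw [map_smul, ← hzc]
      refine Submodule.smul_mem _ _ ⟨zc c, ?_, rfl⟩
      show zc c ∈ PP V (B' ∪ C')
      rw [Finsupp.mem_supported]
      intro b hb
      right; right; right
      simp only [Set.mem_iUnion]
      exact ⟨c, hb⟩
    · have hm : x2 + ∑ c ∈ x1'.support, x1' c • xc c ∈ PP V B' :=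
        add_mem hx2 (sum_mem fun c _ => Submodule.smul_mem _ _ (hxc1 c))
      have := hB'.2 ⟨_, by
          have h1 : π (x : B →₀ V) = 0 := x.2
          rw [← hxx, map_add, hsum, map_sum] at h1
          simp only [LinearMap.mem_ker, map_add, map_sum, map_smul, hxc2]
          simpa using h1⟩ hm
      exact Submodule.map_mono (Finsupp.supported_mono Set.subset_union_left) this

end BG

end Q32.RD
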