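import Pool.Agent.Q32.RD.Bg1
set_option autoImplicit false

namespace Q32.RD

universe u

namespace BG

variable {V : Type u} [CommRing V] {B Y : Type u} [AddCommGroup Y] [Module V Y]
  {π : (B →₀ V) →ₗ[V] Y} {s : Y →ₗ[V] (B →₀ V)} (hs : ∀ y, s y ∈ LinearMap.ker π)
  {r : LinearMap.ker π →ₗ[V] Y}

theorem clo (hCG : S_CG.{u}) (hV : ∀ v : V, v * v = v) (hr : ∀ y, r ⟨s y, hs y⟩ = y)
    (hπ : Function.Surjective π) {B' : Set B} (hB' : Cl π s r B') (b0 : B) :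
    ∃ C : Set B, C.Countable ∧ b0 ∈ C ∧ Cl π s r (B' ∪ C) := by
  classical
  have hstep := fun C : {C : Set B // C.Countable ∧ b0 ∈ C} =>
    step hs hCG hV hr hπ hB' C.1 C.2.1 ⟨b0, C.2.2⟩
  choose N hN1 hN2 hN3 hN4 using hstep
  let Cs : ℕ → {C : Set B // C.Countable ∧ b0 ∈ C} := fun n =>
    Nat.rec ⟨{b0}, Set.countable_singleton _, rfl⟩
      (fun _ C => ⟨N C, hN1 C, hN2 C C.2.2⟩) n
  have hCs : ∀ n, (Cs (n + 1)).1 = N (Cs n) := fun n => rfl
  have hmono1 : ∀ n, (Cs n).1 ⊆ (Cs (n + 1)).1 := fun n => by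
    rw [hCs]
    exact hN2 (Cs n)
  have hmono : ∀ m n, m ≤ n → (Cs m).1 ⊆ (Cs n).1 := by
    intro m n h
    induction h with
    | refl => exact subset_rfl
    | step _ ih => exact ih.trans (hmono1 _)
  refine ⟨⋃ n, (Cs n).1, Set.countable_iUnion fun n => (Cs n).2.1,
    Set.mem_iUnion.2 ⟨0, (Cs 0).2.2⟩, ?_, ?_⟩
  · rintro y ⟨x, hx, rfl⟩
    have hle : PP V (B' ∪ ⋃ n, (Cs n).1) ≤
        (PP V (B' ∪ ⋃ n, (Cs n).1)).comap (s ∘ₗ π) := by
      conv_lhs => rw [PP, Finsupp.supported_eq_span_single]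
      rw [Submodule.span_le]
      rintro _ ⟨b, hb, rfl⟩
      show s (π (Finsupp.single b 1)) ∈ PP V (B' ∪ ⋃ n, (Cs n).1)
      rcases hb with hb | hb
      · exact Finsupp.supported_mono Set.subset_union_left
          (hB'.1 _ ⟨_, Finsupp.single_mem_supported V _ hb, rfl⟩)
      · obtain ⟨n, hn⟩ := Set.mem_iUnion.1 hb
        have := hN3 (Cs n) b hn
        refine Finsupp.supported_mono ?_ this
        refine Set.union_subset_union_right _ ?_
        exact Set.subset_iUnion (fun n => (Cs n).1) (n + 1)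
    exact hle hx
  · intro x hx
    have hfin : ∃ n, (x : B →₀ V) ∈ PP V (B' ∪ (Cs n).1) := by
      have h1 : ∀ b ∈ (x : B →₀ V).support, ∃ n, b ∈ B' ∪ (Cs n).1 := by
        intro b hb
        rcases (Finsupp.mem_supported V _).1 hx hb with h | h
        · exact ⟨0, Or.inl h⟩
        · obtain ⟨n, hn⟩ := Set.mem_iUnion.1 h
          exact ⟨n, Or.inr hn⟩
      choose! n hn using h1
      refine ⟨(x : B →₀ V).support.sup n, (Finsupp.mem_supported V _).2 fun b hb => ?_⟩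
      rcases hn b hb with h | h
      · exact Or.inl h
      · exact Or.inr (hmono _ _ (Finset.le_sup (f := n) hb) h)
    obtain ⟨n, hn⟩ := hfin
    refine Submodule.map_mono (Finsupp.supported_mono ?_) (hN4 (Cs n) x hn)
    refine Set.union_subset_union_right _ ?_
    exact Set.subset_iUnion (fun n => (Cs n).1) (n + 1)

/-- the extension step -/
theorem ext (hCG : S_CG.{u}) (hV : ∀ v : V, v * v = v) (hr : ∀ y, r ⟨s y, hs y⟩ = y)
    {B' : Set B} (hB' : Cl π s r B') (C : Set B) (hC : C.Countable) (hne : C.Nonempty)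
    (σ : Y →ₗ.[V] (B →₀ V)) (hσ : σ.domain = YY π B') (hσ2 : ∀ y, π (σ y) = y) :
    ∃ σ' : Y →ₗ.[V] (B →₀ V), σ ≤ σ' ∧ σ'.domain = YY π (B' ∪ C) ∧ ∀ y, π (σ' y) = y := by
  classical
  obtain ⟨τ, hτ1, hτ2⟩ := sec hCG hV C hC hne (sh s B' ∘ₗ π)
  have ha : ∀ y : YY π (B' ∪ C), (sh s B').domRestrict (YY π (B' ∪ C)) y ∈
      (PP V C).map (sh s B' ∘ₗ π) := by
    rintro ⟨_, x, hx, rfl⟩
    have hx' : x ∈ PP V B' ⊔ PP V C := by
      rw [← Finsupp.supported_union]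
      exact hx
    obtain ⟨x2, hx2, x1, hx1, rfl⟩ := Submodule.mem_sup.1 hx'
    refine ⟨x1, hx1, ?_⟩
    have h2 : sh s B' (π x2) = 0 := (sh_zero_iff hs hr hB' _).2 ⟨x2, hx2, rfl⟩
    simp [h2]
  let a : YY π (B' ∪ C) →ₗ[V] (PP V C).map (sh s B' ∘ₗ π) :=
    ((sh s B').domRestrict (YY π (B' ∪ C))).codRestrict _ ha
  let t : YY π (B' ∪ C) →ₗ[V] (B →₀ V) := τ ∘ₗ a
  have hk : ∀ y : YY π (B' ∪ C), ((YY π (B' ∪ C)).subtype - π ∘ₗ t :
      YY π (B' ∪ C) →ₗ[V] Y) y ∈ σ.domain := by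
    intro y
    rw [hσ]
    refine (sh_zero_iff hs hr hB' _).1 ?_
    have h1 : sh s B' (π (t y)) = sh s B' y := hτ2 (a y)
    simp [h1]
  let k : YY π (B' ∪ C) →ₗ[V] σ.domain :=
    ((YY π (B' ∪ C)).subtype - π ∘ₗ t).codRestrict σ.domain hk
  refine ⟨⟨YY π (B' ∪ C), t + σ.toFun ∘ₗ k⟩, ?_, rfl, ?_⟩
  · refine ⟨?_, ?_⟩
    · exact hσ.le.trans (Submodule.map_mono (Finsupp.supported_mono Set.subset_union_left))
    · rintro y z hyz
      have hz0 : a z = 0 := by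
        apply Subtype.ext
        show sh s B' (z : Y) = 0
        rw [← hyz]
        refine (sh_zero_iff hs hr hB' _).2 ?_
        rw [← hσ]
        exact y.2
      have ht0 : t z = 0 := by
        show τ (a z) = 0
        rw [hz0, map_zero]
      show σ y = t z + σ.toFun (k z)
      rw [ht0, zero_add]
      have hkz : k z = y := by
        apply Subtype.ext
        show (z : Y) - π (t z) = y
        rw [ht0, map_zero, sub_zero, hyz]
      rw [hkz]
      rfl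
  · intro y
    show π (t y + σ (k y)) = y
    rw [map_add, hσ2]
    show π (t y) + ((y : Y) - π (t y)) = y
    abel

end BG

open BG in
theorem bg1 (hCG : S_CG.{u}) : S_BG1.{u} := by
  classical
  intro V _ hV B Y _ _ π s hs r hπ hr
  let P : Set (Set B × (Y →ₗ.[V] (B →₀ V))) :=
    {q | Cl π s r q.1 ∧ q.2.domain = YY π q.1 ∧ ∀ y, π (q.2 y) = y}
  have h0 : ((∅ : Set B), (⊥ : Y →ₗ.[V] (B →₀ V))) ∈ P := by
    have hY : YY π (∅ : Set B) = ⊥ := by
      simp [YY, PP]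
    refine ⟨⟨?_, ?_⟩, ?_, ?_⟩
    · intro y hy
      rw [hY, Submodule.mem_bot] at hy
      rw [hy, map_zero]
      exact Submodule.zero_mem _
    · intro x hx
      have : x = 0 := by
        apply Subtype.ext
        simpa [PP] using hx
      rw [this, map_zero]
      exact Submodule.zero_mem _
    · rw [hY]
      rfl
    · intro y
      have : (y : Y) = 0 := y.2
      have h2 : y = 0 := Subtype.ext this
      rw [h2]
      simp
  obtain ⟨m, -, hm⟩ := zorn_le_nonempty₀ P (by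
    intro c hcP hc q0 hq0
    have hdir : DirectedOn (· ≤ ·) (Prod.snd '' c) := by
      rintro _ ⟨a, ha, rfl⟩ _ ⟨b, hb, rfl⟩
      rcases hc.total ha hb with h | h
      · exact ⟨b.2, ⟨b, hb, rfl⟩, h.2, le_rfl⟩
      · exact ⟨a.2, ⟨a, ha, rfl⟩, le_rfl, h.2⟩
    have hne : (Prod.snd '' c).Nonempty := ⟨_, q0, hq0, rfl⟩
    -- finitely supported elements
    have hfin : ∀ x : B →₀ V, x ∈ PP V (⋃ a ∈ c, a.1) → ∃ a ∈ c, x ∈ PP V a.1 := by
      intro x hx
      have hd2 : DirectedOn (fun i j => (i : Set B × (Y →ₗ.[V] (B →₀ V))).1 ⊆ j.1) c := by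
        intro a ha b hb
        rcases hc.total ha hb with h | h
        · exact ⟨b, hb, h.1, subset_rfl⟩
        · exact ⟨a, ha, subset_rfl, h.1⟩
      obtain ⟨a, ha, h⟩ := DirectedOn.exists_mem_subset_of_finset_subset_biUnion
        (f := fun a : Set B × (Y →ₗ.[V] (B →₀ V)) => a.1) ⟨q0, hq0⟩ hd2
        ((Finsupp.mem_supported V _).1 hx)
      exact ⟨a, ha, (Finsupp.mem_supported V _).2 h⟩
    have hsub : ∀ a ∈ c, a.1 ⊆ ⋃ a ∈ c, a.1 := fun a ha =>
      Set.subset_biUnion_of_mem (u := fun a : Set B × (Y →ₗ.[V] (B →₀ V)) => a.1) ha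
    refine ⟨(⋃ a ∈ c, a.1, LinearPMap.sSup (Prod.snd '' c) hdir), ⟨⟨?_, ?_⟩, ?_, ?_⟩, ?_⟩
    · rintro y ⟨x, hx, rfl⟩
      obtain ⟨a, ha, hxa⟩ := hfin x hx
      exact Finsupp.supported_mono (hsub a ha) ((hcP ha).1.1 _ ⟨x, hxa, rfl⟩)
    · intro x hx
      obtain ⟨a, ha, hxa⟩ := hfin _ hx
      exact Submodule.map_mono (Finsupp.supported_mono (hsub a ha)) ((hcP ha).1.2 x hxa)
    · apply le_antisymm
      · intro y hy
        obtain ⟨_, ⟨a, ha, rfl⟩, hya⟩ := (LinearPMap.mem_domain_sSup_iff hne hdir).1 hy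
        rw [(hcP ha).2.1] at hya
        exact Submodule.map_mono (Finsupp.supported_mono (hsub a ha)) hya
      · rintro y ⟨x, hx, rfl⟩
        obtain ⟨a, ha, hxa⟩ := hfin x hx
        refine (LinearPMap.mem_domain_sSup_iff hne hdir).2 ⟨_, ⟨a, ha, rfl⟩, ?_⟩
        rw [(hcP ha).2.1]
        exact ⟨x, hxa, rfl⟩
    · intro y
      obtain ⟨_, ⟨a, ha, rfl⟩, hya⟩ := (LinearPMap.mem_domain_sSup_iff hne hdir).1 y.2
      have h1 := LinearPMap.sSup_apply hdir (l := a.2) ⟨a, ha, rfl⟩ ⟨y, hya⟩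
      have h2 : (LinearPMap.sSup (Prod.snd '' c) hdir) y = a.2 ⟨y, hya⟩ := h1
      show π ((LinearPMap.sSup (Prod.snd '' c) hdir) y) = y
      rw [h2, (hcP ha).2.2]
    · intro z hz
      exact ⟨hsub z hz, LinearPMap.le_sSup hdir ⟨z, hz, rfl⟩⟩) _ h0
  obtain ⟨⟨hcl, hdom, hsec⟩, hmax⟩ := hm
  have huniv : m.1 = Set.univ := by
    by_contra hne
    obtain ⟨b0, hb0⟩ := (Set.ne_univ_iff_exists_notMem _).1 hne
    obtain ⟨C, hC, hb0C, hclC⟩ := clo hs hCG hV hr hπ hcl b0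
    obtain ⟨σ', h1, h2, h3⟩ := ext hs hCG hV hr hcl C hC ⟨b0, hb0C⟩ m.2 hdom hsec
    have h4 : (m.1 ∪ C, σ') ∈ P := ⟨hclC, h2, h3⟩
    have h5 := hmax h4 (show m ≤ (m.1 ∪ C, σ') from ⟨Set.subset_union_left, h1⟩)
    exact hb0 (h5.1 (Or.inr hb0C))
  have htop : m.2.domain = ⊤ := by
    rw [hdom, huniv]
    simp only [YY, PP, Finsupp.supported_univ, Submodule.map_top]
    exact LinearMap.range_eq_top.2 hπ
  let σ : Y →ₗ[V] (B →₀ V) := m.2.toFun ∘ₗ
    (LinearMap.id.codRestrict m.2.domain (fun y => by rw [htop]; trivial))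
  refine Module.Projective.of_split σ π ?_
  ext y
  exact hsec _

end Q32.RD
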