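import Pool.Agent.Q32.RD.Bg2
set_option autoImplicit false

namespace Q32.RD

universe u

theorem bg (hCG : S_CG.{u}) : S_BG.{u} := by
  classical
  intro V _ hV P Y _ _ _ _ π s hs r e hP hπ hr
  obtain ⟨σ, hσ⟩ := (Module.projective_def' (R := V) (P := P)).1 hP
  have hσ' : ∀ p, Finsupp.linearCombination V (id : P → P) (σ p) = p := fun p =>
    congrArg (fun g => g p) hσ
  let ρ : (P →₀ V) →ₗ[V] P := Finsupp.linearCombination V (id : P → P)
  let m : Y →ₗ[V] Y := e • LinearMap.id
  let Ye : Submodule V Y := LinearMap.range m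
  have hYe : ∀ y ∈ Ye, e • y = y := by
    rintro _ ⟨z, rfl⟩
    show e • (e • z) = e • z
    rw [smul_smul, hV]
  let me : Y →ₗ[V] Ye := m.rangeRestrict
  let πe : (P →₀ V) →ₗ[V] Ye := me ∘ₗ π ∘ₗ ρ
  let se : Ye →ₗ[V] (P →₀ V) := σ ∘ₗ s ∘ₗ Ye.subtype
  have hse : ∀ y, se y ∈ LinearMap.ker πe := by
    intro y
    apply Subtype.ext
    show e • π (ρ (σ (s y))) = 0
    have : ρ (σ (s y)) = s y := hσ' _
    have h2 : π (s y) = 0 := hs y
    rw [this, h2, smul_zero]
  have hre : ∀ x : LinearMap.ker πe, e • ρ x ∈ LinearMap.ker π := by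
    intro x
    have : e • π (ρ x) = 0 := congrArg Subtype.val x.2
    simpa [LinearMap.mem_ker] using this
  let re : LinearMap.ker πe →ₗ[V] Ye := me ∘ₗ r ∘ₗ
    ((e • ρ ∘ₗ (LinearMap.ker πe).subtype).codRestrict (LinearMap.ker π) hre)
  have hproj : Module.Projective V Ye := by
    refine bg1 hCG V hV P Ye πe se hse re ?_ ?_
    · rintro ⟨_, z, rfl⟩
      obtain ⟨p, rfl⟩ := hπ z
      refine ⟨Finsupp.single p 1, ?_⟩
      apply Subtype.ext
      show e • π (ρ (Finsupp.single p 1)) = e • π p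
      simp [ρ]
    · intro y
      apply Subtype.ext
      show e • r ⟨e • ρ (σ (s y)), _⟩ = y
      have h1 : (⟨e • ρ (σ (s y)), hre ⟨se y, hse y⟩⟩ : LinearMap.ker π) = e • ⟨s y, hs y⟩ := by
        apply Subtype.ext
        show e • ρ (σ (s y)) = e • s y
        have : ρ (σ (s y)) = s y := hσ' _
        rw [this]
      rw [h1, map_smul, hr, hYe y y.2, hYe y y.2, hYe y y.2]
  obtain ⟨t, ht⟩ := (Module.projective_def' (R := V) (P := Ye)).1 hproj
  refine ⟨(Finsupp.lmapDomain V V (Subtype.val : Ye → Y)) ∘ₗ t ∘ₗ me, fun y => ?_⟩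
  have h1 : Finsupp.linearCombination V (id : Ye → Ye) (t (me y)) = me y :=
    congrArg (fun g => g (me y)) ht
  have h2 : ∀ z : Ye →₀ V, Finsupp.linearCombination V (id : Y → Y)
      (Finsupp.lmapDomain V V (Subtype.val : Ye → Y) z) =
      Ye.subtype (Finsupp.linearCombination V (id : Ye → Ye) z) := by
    intro z
    rw [Finsupp.apply_linearCombination, Finsupp.lmapDomain_apply,
      Finsupp.linearCombination_mapDomain]
    rfl
  show Finsupp.linearCombination V (id : Y → Y)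
      (Finsupp.lmapDomain V V (Subtype.val : Ye → Y) (t (me y))) = e • y
  rw [h2, h1]
  rfl

end Q32.RD
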