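import Pool.Agent.Q32.RD.Glu
set_option autoImplicit false

namespace Q32.RD

universe u

open Cardinal

theorem vM_fin {I V : Type u} [CommRing V] (S : Sys I V) {T : Type u} (m : T →₀ V) :
    (S.vM m).Finite := by
  refine Set.Finite.subset (Set.Finite.biUnion (Finset.finite_toSet m.support)
    (fun t _ => S.fin (m t))) ?_
  intro i hi
  by_contra hc
  apply hi
  ext t
  by_cases ht : t ∈ m.support
  · by_contra h
    apply hc
    simp only [Set.mem_iUnion]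
    refine ⟨t, by simpa using ht, ?_⟩
    simpa [Sys.rM] using h
  · have : m t = 0 := by simpa using ht
    simp [Sys.rM, this]

theorem bU {ι α : Type u} (s : Set ι) (A : ι → Set α) (κ : Cardinal.{u}) (hκ : ℵ₀ ≤ κ)
    (hs : #s ≤ κ) (hA : ∀ x ∈ s, #(A x) ≤ κ) : #(⋃ x ∈ s, A x : Set α) ≤ κ := by
  refine (Cardinal.mk_biUnion_le A s).trans ?_
  refine (mul_le_mul' hs (ciSup_le' (fun x : s => hA x.1 x.2))).trans ?_
  rw [Cardinal.mul_eq_self hκ]

theorem uU {α : Type u} (s t : Set α) (κ : Cardinal.{u}) (hκ : ℵ₀ ≤ κ)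
    (hs : #s ≤ κ) (ht : #t ≤ κ) : #(s ∪ t : Set α) ≤ κ := by
  refine (Cardinal.mk_union_le s t).trans ?_
  refine (add_le_add hs ht).trans ?_
  rw [Cardinal.add_eq_self hκ]

theorem fU {α : Type u} (s : Set α) (hs : s.Finite) (κ : Cardinal.{u}) (hκ : ℵ₀ ≤ κ) :
    #s ≤ κ := (Cardinal.lt_aleph0_iff_set_finite.2 hs).le.trans hκ

theorem cla : S_CLA.{u} := by
  classical
  intro I V _ S lvl hlvl B0 B1 T bd jB jK hjB hjK h1 h0 f
  have hal : ∀ n : ℕ, ℵ₀ ≤ (ℵ_ (n : Ordinal.{u})) := fun n => Cardinal.aleph0_le_aleph _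
  -- the pieces
  let K : ℕ → Set (LinearMap.ker bd) := fun n => {x | lvl (jK x) ≤ n}
  have hK : ∀ n, #(K n) ≤ ℵ_ (n : Ordinal.{u}) := by
    intro n
    rw [← hlvl n]
    refine Cardinal.mk_le_of_injective (f := fun x : K n => (⟨jK x.1, x.2⟩ : {i // lvl i ≤ n})) ?_
    intro x y hxy
    exact Subtype.ext (hjK (congrArg Subtype.val hxy))
  let B' : ℕ → Set B1 := fun n => {b | lvl (jB b) ≤ n}
  have hB' : ∀ n, #(B' n) ≤ ℵ_ (n : Ordinal.{u}) := by
    intro n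
    rw [← hlvl n]
    refine Cardinal.mk_le_of_injective (f := fun x : B' n => (⟨jB x.1, x.2⟩ : {i // lvl i ≤ n})) ?_
    intro x y hxy
    exact Subtype.ext (hjB (congrArg Subtype.val hxy))
  let Bn : ℕ → Set B1 := fun n =>
    B' n ∪ ⋃ x ∈ K n, (((x : B1 →₀ V).support : Finset B1) : Set B1)
  have hBn : ∀ n, #(Bn n) ≤ ℵ_ (n : Ordinal.{u}) := by
    intro n
    refine uU _ _ _ (hal n) (hB' n) (bU _ _ _ (hal n) (hK n) fun x _ => ?_)
    exact fU _ (Finset.finite_toSet _) _ (hal n)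
  have hKmono : ∀ m n, m ≤ n → K m ⊆ K n := fun m n h x hx => le_trans hx h
  have hBmono : ∀ m n, m ≤ n → Bn m ⊆ Bn n := by
    intro m n h b hb
    rcases hb with hb | hb
    · exact Or.inl (le_trans hb h)
    · right
      simp only [Set.mem_iUnion] at hb ⊢
      obtain ⟨x, hx, hxb⟩ := hb
      exact ⟨x, hKmono m n h hx, hxb⟩
  let Bad : ℕ → Set I := fun n =>
    ((⋃ x ∈ K n, S.vM (x : B1 →₀ V)) ∪ (⋃ x ∈ K n, S.vM (f x))) ∪
      ⋃ b ∈ Bn n, S.vM (bd (Finsupp.single b 1))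
  have hBad : ∀ n, #(Bad n) ≤ ℵ_ (n : Ordinal.{u}) := by
    intro n
    refine uU _ _ _ (hal n) (uU _ _ _ (hal n) ?_ ?_) ?_
    · exact bU _ _ _ (hal n) (hK n) fun x _ => fU _ (vM_fin S _) _ (hal n)
    · exact bU _ _ _ (hal n) (hK n) fun x _ => fU _ (vM_fin S _) _ (hal n)
    · exact bU _ _ _ (hal n) (hBn n) fun x _ => fU _ (vM_fin S _) _ (hal n)
  choose g hg using fun i => h1 i f
  let Sn : ℕ → I → Set I := fun n i => ⋃ b ∈ Bn n, S.vM (g i (Finsupp.single b 1))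
  have hSn : ∀ n i, #(Sn n i) ≤ ℵ_ (n : Ordinal.{u}) := by
    intro n i
    exact bU _ _ _ (hal n) (hBn n) fun x _ => fU _ (vM_fin S _) _ (hal n)
  have hSmono : ∀ m n, m ≤ n → ∀ i, Sn m i ⊆ Sn n i := by
    intro m n h i j hj
    simp only [Sn, Set.mem_iUnion] at hj ⊢
    obtain ⟨b, hb, hjb⟩ := hj
    exact ⟨b, hBmono m n h hb, hjb⟩
  let L : ℕ → Set I := fun n => {i | lvl i ≤ n + 1}
  have hL : ∀ n : ℕ, #(L n) = ℵ_ ((n + 1 : ℕ) : Ordinal.{u}) := fun n => hlvl (n + 1)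
  have hlt : ∀ n : ℕ, ℵ_ (n : Ordinal.{u}) < ℵ_ ((n + 1 : ℕ) : Ordinal.{u}) := by
    intro n
    rw [Cardinal.aleph_lt_aleph]
    exact_mod_cast Nat.lt_succ_self n
  -- choice of `i_n`
  have hin : ∀ n : ℕ, ∃ i, i ∉ Bad n ∪ ⋃ l ∈ L n, Sn n l := by
    intro n
    have hc : #(Bad n ∪ ⋃ l ∈ L n, Sn n l : Set I) ≤ ℵ_ ((n + 1 : ℕ) : Ordinal.{u}) := by
      refine uU _ _ _ (hal _) ((hBad n).trans (hlt n).le) (bU _ _ _ (hal _) (hL n).le fun l _ => ?_)
      exact (hSn n l).trans (hlt n).le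
    have h2 : #(Bad n ∪ ⋃ l ∈ L n, Sn n l : Set I) < #(L (n + 1)) := by
      rw [hL (n + 1)]
      exact hc.trans_lt (hlt (n + 1))
    obtain ⟨i, _, hi⟩ := Cardinal.sdiff_nonempty_of_mk_lt_mk h2
    exact ⟨i, hi⟩
  choose ix hix using hin
  have hix1 : ∀ n, ix n ∉ Bad n := fun n h => hix n (Or.inl h)
  have hix2 : ∀ n, ∀ l ∈ L n, ix n ∉ Sn n l := by
    intro n l hl h
    apply hix n
    right
    simp only [Set.mem_iUnion]
    exact ⟨l, hl, h⟩
  -- comparison with `l`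
  have hcmp : ∀ n, ∀ i l, i ∉ Bad n → l ∉ Bad n → l ∉ Sn n i → i ∉ Sn n l →
      ∃ a : (B0 →₀ V) →ₗ[V] (T →₀ V), ∀ b ∈ Bn n,
        S.tw i (g i) (Finsupp.single b 1) - S.tw l (g l) (Finsupp.single b 1) =
          a (bd (Finsupp.single b 1)) := by
    intro n i l hi hl hil hli
    refine cmp I V S B0 B1 T bd f g (fun i x => hg i x) h0 (Bn n) i l ?_ ?_ ?_ ?_
    · intro b hb h
      apply hi
      right
      simp only [Set.mem_iUnion]
      exact ⟨b, hb, h⟩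
    · intro b hb h
      apply hl
      right
      simp only [Set.mem_iUnion]
      exact ⟨b, hb, h⟩
    · intro b hb h
      apply hil
      simp only [Sn, Set.mem_iUnion]
      exact ⟨b, hb, h⟩
    · intro b hb h
      apply hli
      simp only [Sn, Set.mem_iUnion]
      exact ⟨b, hb, h⟩
  have hBadmono : ∀ m n, m ≤ n → Bad m ⊆ Bad n := by
    intro m n h j hj
    rcases hj with (hj | hj) | hj
    · left; left
      simp only [Set.mem_iUnion] at hj ⊢
      obtain ⟨x, hx, h'⟩ := hj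
      exact ⟨x, hKmono m n h hx, h'⟩
    · left; right
      simp only [Set.mem_iUnion] at hj ⊢
      obtain ⟨x, hx, h'⟩ := hj
      exact ⟨x, hKmono m n h hx, h'⟩
    · right
      simp only [Set.mem_iUnion] at hj ⊢
      obtain ⟨x, hx, h'⟩ := hj
      exact ⟨x, hBmono m n h hx, h'⟩
  have hlink : ∀ n, ∃ a : (B0 →₀ V) →ₗ[V] (T →₀ V), ∀ b ∈ Bn n,
      S.tw (ix (n + 1)) (g (ix (n + 1))) (Finsupp.single b 1) -
        S.tw (ix n) (g (ix n)) (Finsupp.single b 1) = a (bd (Finsupp.single b 1)) := by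
    intro n
    have hc : #((Bad n ∪ Sn n (ix n)) ∪ Sn n (ix (n + 1)) : Set I) < #(L n) := by
      rw [hL n]
      refine lt_of_le_of_lt ?_ (hlt n)
      exact uU _ _ _ (hal n) (uU _ _ _ (hal n) (hBad n) (hSn n _)) (hSn n _)
    obtain ⟨l, hlL, hl⟩ := Cardinal.sdiff_nonempty_of_mk_lt_mk hc
    have hl1 : l ∉ Bad n := fun h => hl (Or.inl (Or.inl h))
    have hl2 : l ∉ Sn n (ix n) := fun h => hl (Or.inl (Or.inr h))
    have hl3 : l ∉ Sn n (ix (n + 1)) := fun h => hl (Or.inr h)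
    have hlL' : l ∈ L (n + 1) := by
      have h1 : lvl l ≤ n + 1 := hlL
      show lvl l ≤ n + 1 + 1
      omega
    obtain ⟨a1, ha1⟩ := hcmp n (ix n) l (hix1 n) hl1 hl2 (hix2 n l hlL)
    obtain ⟨a2, ha2⟩ := hcmp n (ix (n + 1)) l
      (fun h => hix1 (n + 1) (hBadmono n (n + 1) (Nat.le_succ n) h)) hl1 hl3
      (fun h => hix2 (n + 1) l hlL' (hSmono n (n + 1) (Nat.le_succ n) l h))
    refine ⟨a2 - a1, fun b hb => ?_⟩
    rw [LinearMap.sub_apply, ← ha1 b hb, ← ha2 b hb]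
    abel
  choose a ha using hlink
  refine glu V B0 B1 (T →₀ V) bd f Bn K (fun n => S.tw (ix n) (g (ix n))) a
    (fun n => hBmono n (n + 1) (Nat.le_succ n)) (fun b => ⟨lvl (jB b), Or.inl (show lvl (jB b) ≤ lvl (jB b) from le_rfl)⟩)
    (fun x => ⟨lvl (jK x), (show lvl (jK x) ≤ lvl (jK x) from le_rfl)⟩) ?_ ?_ ha
  · intro n x hx b hb
    right
    simp only [Set.mem_iUnion]
    exact ⟨x, hx, by simpa using hb⟩
  · intro n x hx
    have h2 : ix n ∉ S.vM (x : B1 →₀ V) := by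
      intro h
      apply hix1 n
      left; left
      simp only [Set.mem_iUnion]
      exact ⟨x, hx, h⟩
    have h3 : ix n ∉ S.vM (f x) := by
      intro h
      apply hix1 n
      left; right
      simp only [Set.mem_iUnion]
      exact ⟨x, hx, h⟩
    have h2' : S.rM (ix n) (x : B1 →₀ V) = x := by simpa [Sys.vM] using h2
    have h3' : S.rM (ix n) (f x) = f x := by simpa [Sys.vM] using h3
    have h4 := tw I V S B1 T (ix n) (g (ix n)) (x : B1 →₀ V)
    rw [h2'] at h4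
    rw [← h4, hg, rM_smul, S.rho_e, one_smul, h3']

end Q32.RD
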