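import Mathlib
set_option autoImplicit false

/-!
# Project RD: relatively cotorsion periodicity fails (MP_d608f2_al)

Definitions.
-/

namespace Q32.RD

universe u

section defs

variable (A : Type u) [Ring A]

/-- Every extension of `F` by `C` splits (`Ext¹(F, C) = 0`), in terms of retractions. -/
def Spl (F C : Type u) [AddCommGroup F] [Module A F] [AddCommGroup C] [Module A C] : Prop :=
  ∀ (E : Type u) [AddCommGroup E] [Module A E] (i : C →ₗ[A] E) (p : E →ₗ[A] F),
    Function.Injective i → Function.Surjective p → LinearMap.range i = LinearMap.ker p →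
    ∃ r : E →ₗ[A] C, ∀ c, r (i c) = c

/-- Flatness of a left module over a (noncommutative) ring, by the equational criterion. -/
def IsFlat (F : Type u) [AddCommGroup F] [Module A F] : Prop :=
  ∀ (n : ℕ) (r : Fin n → A) (x : Fin n → F), ∑ i, r i • x i = 0 →
    ∃ (m : ℕ) (b : Fin n → Fin m → A) (y : Fin m → F), (∀ i, x i = ∑ j, b i j • y j) ∧
      ∀ j, ∑ i, r i * b i j = 0

end defs

/-- multiplication by `e` on `X` factors through a free module -/
def EP {V : Type u} [CommRing V] (e : V) (X : Type u) [AddCommGroup X] [Module V X] : Prop :=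
  ∃ s : X →ₗ[V] (X →₀ V), ∀ x, Finsupp.linearCombination V (id : X → X) (s x) = e • x

/-- The data on the Boolean ring `V`: the elements `e i` (coordinate functions), the substitutions
`ρ i` (`e i := 1`) and the augmentation `c` (all `e i := 0`). -/
structure Sys (I V : Type u) [CommRing V] where
  e : I → V
  ρ : I → V →+* V
  c : V →+* V
  idem : ∀ v : V, v * v = v
  rho_e : ∀ i, ρ i (e i) = 1
  comm : ∀ i j v, ρ i (ρ j v) = ρ j (ρ i v)
  fin : ∀ v, {i | ρ i v ≠ v}.Finite
  c_e : ∀ i, c (e i) = 0
  c_val : ∀ v, c v = 0 ∨ c v = 1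
  one_ne : (1 : V) ≠ 0

namespace Sys

variable {I V : Type u} [CommRing V] (S : Sys I V)

/-- coefficientwise action of `ρ i` -/
noncomputable def rM {T : Type u} (i : I) : (T →₀ V) →+ (T →₀ V) :=
  Finsupp.mapRange.addMonoidHom (S.ρ i).toAddMonoidHom

/-- the variables involved in `m` -/
def vM {T : Type u} (m : T →₀ V) : Set I := {i | S.rM i m ≠ m}

/-- the twist of a linear map by `ρ i` -/
noncomputable def tw {B T : Type u} (i : I) (g : (B →₀ V) →ₗ[V] (T →₀ V)) :
    (B →₀ V) →ₗ[V] (T →₀ V) :=
  Finsupp.linearCombination V (fun b => S.rM i (g (Finsupp.single b 1)))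

end Sys

/-- The data on the ring `W` (`V ⊗ V`): two ring homomorphisms from `V`, the multiplication `μ` and
the map `η = id ⊗ c`. -/
structure BiDat {I V : Type u} [CommRing V] (S : Sys I V) (W : Type u) [CommRing W]
    [Module V W] where
  L : V →+* W
  R : V →+* W
  μ : W →+* V
  η : W →+* V
  mu_L : ∀ v, μ (L v) = v
  mu_R : ∀ v, μ (R v) = v
  eta_L : ∀ v, η (L v) = v
  eta_R : ∀ v, η (R v) = S.c v
  c_eta : ∀ w, S.c (η w) = S.c (μ w)
  good : ∀ w, ∃ f, S.c f = 0 ∧ (w - L (η w)) * R (1 - f) = 0
  smul_L : ∀ (v : V) (w : W), v • w = L v * w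
  proj : Module.Projective V W

section ring

variable {I V : Type u} [CommRing V] {S : Sys I V} {W : Type u} [CommRing W] [Module V W]

/-- The big ring `V × W × (I →₀ V)`. -/
def Big (_ : BiDat S W) : Type u := V × W × (I →₀ V)

namespace Big

variable {D : BiDat S W}

noncomputable instance : AddCommGroup (Big D) :=
  inferInstanceAs (AddCommGroup (V × W × (I →₀ V)))

/-- constructor -/
def mk' (D : BiDat S W) (v : V) (w : W) (x : I →₀ V) : Big D := (v, w, x)

/-- first component -/
def fs (a : Big D) : V := a.1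

/-- second component -/
def sn (a : Big D) : W := a.2.1

/-- third component -/
def th (a : Big D) : I →₀ V := a.2.2

@[ext] theorem ext {a b : Big D} (h1 : a.fs = b.fs) (h2 : a.sn = b.sn) (h3 : a.th = b.th) :
    a = b := Prod.ext h1 (Prod.ext h2 h3)

noncomputable instance : Mul (Big D) :=
  ⟨fun a b => mk' D (a.fs * b.fs) (D.L a.fs * b.sn + a.sn * D.R b.fs) (a.fs • b.th + b.fs • a.th)⟩

noncomputable instance : One (Big D) := ⟨mk' D 1 0 0⟩

@[simp] theorem fs_mk (v : V) (w : W) (x : I →₀ V) : (mk' D v w x).fs = v := rfl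
@[simp] theorem sn_mk (v : V) (w : W) (x : I →₀ V) : (mk' D v w x).sn = w := rfl
@[simp] theorem th_mk (v : V) (w : W) (x : I →₀ V) : (mk' D v w x).th = x := rfl
@[simp] theorem fs_add (a b : Big D) : (a + b).fs = a.fs + b.fs := rfl
@[simp] theorem sn_add (a b : Big D) : (a + b).sn = a.sn + b.sn := rfl
@[simp] theorem th_add (a b : Big D) : (a + b).th = a.th + b.th := rfl
@[simp] theorem fs_neg (a : Big D) : (-a).fs = -a.fs := rfl
@[simp] theorem sn_neg (a : Big D) : (-a).sn = -a.sn := rfl
@[simp] theorem th_neg (a : Big D) : (-a).th = -a.th := rfl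
@[simp] theorem fs_zero : (0 : Big D).fs = 0 := rfl
@[simp] theorem sn_zero : (0 : Big D).sn = 0 := rfl
@[simp] theorem th_zero : (0 : Big D).th = 0 := rfl
@[simp] theorem fs_one : (1 : Big D).fs = 1 := rfl
@[simp] theorem sn_one : (1 : Big D).sn = 0 := rfl
@[simp] theorem th_one : (1 : Big D).th = 0 := rfl
@[simp] theorem fs_mul (a b : Big D) : (a * b).fs = a.fs * b.fs := rfl
@[simp] theorem sn_mul (a b : Big D) : (a * b).sn = D.L a.fs * b.sn + a.sn * D.R b.fs := rfl
@[simp] theorem th_mul (a b : Big D) : (a * b).th = a.fs • b.th + b.fs • a.th := rfl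

noncomputable instance : Ring (Big D) :=
  { (inferInstance : AddCommGroup (Big D)) with
    mul := (· * ·)
    one := 1
    mul_assoc := by
      intro a b c
      refine ext ?_ ?_ ?_
      · simp [mul_assoc]
      · simp only [sn_mul, fs_mul, map_mul]; ring
      · simp only [th_mul, fs_mul, smul_add, smul_smul]
        rw [mul_comm c.fs a.fs, mul_comm c.fs b.fs, ← add_assoc]
    one_mul := by intro a; refine ext ?_ ?_ ?_ <;> simp
    mul_one := by intro a; refine ext ?_ ?_ ?_ <;> simp
    left_distrib := by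
      intro a b c
      refine ext ?_ ?_ ?_
      · simp [mul_add]
      · simp only [sn_mul, fs_add, sn_add, map_add]; ring
      · simp only [th_mul, fs_add, th_add, smul_add, add_smul]; abel
    right_distrib := by
      intro a b c
      refine ext ?_ ?_ ?_
      · simp [add_mul]
      · simp only [sn_mul, fs_add, sn_add, map_add]; ring
      · simp only [th_mul, fs_add, th_add, smul_add, add_smul]; abel
    zero_mul := by intro a; refine ext ?_ ?_ ?_ <;> simp
    mul_zero := by intro a; refine ext ?_ ?_ ?_ <;> simp }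

end Big

/-- The ring `A = V ⋉ (E₂ ⊕ E₁)`. -/
noncomputable def RA (D : BiDat S W) : Subring (Big D) where
  carrier := {a | D.μ a.sn = 0 ∧ ∀ i, S.e i * a.th i = a.th i}
  mul_mem' := by
    rintro a b ⟨h1, h2⟩ ⟨h3, h4⟩
    refine ⟨by simp [h1, h3], fun i => ?_⟩
    simp only [Big.th_mul, Finsupp.add_apply, Finsupp.smul_apply, smul_eq_mul, mul_add]
    rw [mul_left_comm, h4, mul_left_comm, h2]
  one_mem' := by simp
  add_mem' := by
    rintro a b ⟨h1, h2⟩ ⟨h3, h4⟩
    refine ⟨by simp [h1, h3], fun i => ?_⟩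
    simp only [Big.th_add, Finsupp.add_apply, mul_add, h2, h4]
  zero_mem' := by simp
  neg_mem' := by
    rintro a ⟨h1, h2⟩
    refine ⟨by simp [h1], fun i => ?_⟩
    simp only [Big.th_neg, Finsupp.neg_apply, mul_neg, h2]

/-- the inclusion of `V` -/
noncomputable def inc (D : BiDat S W) : V →+* RA D where
  toFun v := ⟨Big.mk' D v 0 0, by simp [RA]⟩
  map_one' := rfl
  map_mul' a b := Subtype.ext (by refine Big.ext ?_ ?_ ?_ <;> simp)
  map_zero' := rfl
  map_add' a b := Subtype.ext (by refine Big.ext ?_ ?_ ?_ <;> simp)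

/-- the projection onto `V` -/
noncomputable def prj (D : BiDat S W) : RA D →+* V where
  toFun a := a.1.fs
  map_one' := rfl
  map_mul' _ _ := rfl
  map_zero' := rfl
  map_add' _ _ := rfl

/-- `E U`, the part of `U` generated by the nilpotent ideal -/
def ES (D : BiDat S W) (U : Type u) [AddCommGroup U] [Module (RA D) U] [Module V U] :
    Submodule V U :=
  Submodule.span V {w | ∃ a : RA D, prj D a = 0 ∧ ∃ x : U, w = a • x}

end ring

end Q32.RD
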