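import Pool.Agent.Q32.RD.Sml
import Pool.Agent.Q32.RD.Bg3
set_option autoImplicit false

namespace Q32.RD

universe u

open Cardinal

/-- relatively cotorsion -/
def RCot {R A : Type u} [Ring R] [Ring A] (f : R →+* A) (C : Type u) [AddCommGroup C]
    [Module A C] : Prop :=
  ∀ (F : Type u) [AddCommGroup F] [Module A F], IsFlat A F →
    @Module.Projective R _ F _ (Module.compHom F f) → Spl A F C

theorem spl_congr {A : Type u} [Ring A] {F C C' : Type u} [AddCommGroup F] [Module A F]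
    [AddCommGroup C] [Module A C] [AddCommGroup C'] [Module A C'] (e : C ≃ₗ[A] C')
    (h : Spl A F C) : Spl A F C' := by
  intro E _ _ i p hi hp hip
  obtain ⟨r, hr⟩ := h E (i ∘ₗ e.toLinearMap) p (hi.comp e.injective) hp (by
    rw [← hip]
    ext x
    constructor
    · rintro ⟨y, rfl⟩
      exact ⟨e y, rfl⟩
    · rintro ⟨y, rfl⟩
      exact ⟨e.symm y, by simp⟩)
  refine ⟨e.toLinearMap ∘ₗ r, fun c => ?_⟩
  have := hr (e.symm c)
  simp only [LinearMap.comp_apply, LinearEquiv.coe_coe, LinearEquiv.apply_symm_apply] at this ⊢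
  rw [this, LinearEquiv.apply_symm_apply]

section

variable {I V : Type u} [CommRing V] {S : Sys I V} {W : Type u} [CommRing W] [Module V W]

/-- positive part: `N` is relatively cotorsion -/
theorem posN (hRED : S_RED.{u}) (hEPU : S_EPU.{u}) (hTR : S_TR.{u}) [Infinite I]
    (hV : #V ≤ #I) (D : BiDat S W) (N : Type u) [AddCommGroup N] [Module V N] [Module (RA D) N]
    (hN : ∀ (a : RA D) (x : N), a • x = prj D a • x)
    (hsm : ∀ (X : Type u) [AddCommGroup X] [Module V X], #X ≤ #I → (∀ i, EP (S.e i) X) →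
      Spl V X N) : RCot (inc D) N := by
  intro U _ _ hU hP
  let _ : Module V U := Module.compHom U (inc D)
  have hvU : ∀ (v : V) (x : U), v • x = inc D v • x := fun v x => rfl
  refine hTR I V S W D U N hvU hN hU ?_
  exact hRED I V S hV N hsm (U ⧸ ES D U) (hEPU I V S W D U hvU hU hP)

/-- negative part -/
theorem negZ (hNP : S_NP.{u}) (hU0 : S_U0.{u}) (hRG5 : S_RG5.{u}) [Uncountable I]
    (D : BiDat S W) (Z : Type u) [AddCommGroup Z] [Module V Z] [Module (RA D) Z]
    (hZ : ∀ (a : RA D) (x : Z), a • x = prj D a • x)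
    (hsp : Spl V (V ⧸ RingHom.ker S.c) Z → Module.Projective V (RingHom.ker S.c)) :
    ¬ RCot (inc D) Z := by
  intro hcot
  obtain ⟨m, hm1, hm2⟩ := hU0 I V S W D
  refine hNP I V S (hsp (hRG5 I V S W D m hm1 Z hZ ?_))
  refine @hcot V _ m hm2 ?_
  have hmod : @Module.compHom (RA D) V V _ _ m _ (inc D) = (Semiring.toModule : Module V V) := by
    refine Module.ext' _ _ fun v x => ?_
    show m.smul (inc D v) x = v * x
    rw [hm1]
    show v * x + D.η 0 * S.c x = v * x
    rw [map_zero, zero_mul, add_zero]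
  rw [hmod]
  exact inferInstance

/-- generic assembly with abstract `Q` -/
theorem fin1 (hX1 : S_X1.{u}) (hRED : S_RED.{u}) (hEPU : S_EPU.{u}) (hTR : S_TR.{u})
    (hNP : S_NP.{u}) (hU0 : S_U0.{u}) (hRG5 : S_RG5.{u}) (hEMB : S_EMB.{u})
    (lvl : I → ℕ) (hV : #V ≤ #I) (hlvl : ∀ n : ℕ, #{i // lvl i ≤ n} = ℵ_ n) (D : BiDat S W)
    (Q : Type u) [AddCommGroup Q] [Module V Q] (hQ : Module.Injective V Q)
    (Dm : (Q × (ℕ →₀ (I →₀ V))) →ₗ[V] (Q × (ℕ →₀ (I →₀ V))))
    (hDm : LinearMap.ker Dm = LinearMap.range Dm)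
    (hsp : ∀ (J : Type u) [AddCommGroup J] [Module V J] (i : LinearMap.ker Dm →ₗ[V] J),
        Module.Injective V J → Function.Injective i →
        Spl V (V ⧸ RingHom.ker S.c) (J ⧸ LinearMap.range i) →
          Module.Projective V (RingHom.ker S.c)) :
    ∃ (N : Type u) (_ : AddCommGroup N) (_ : Module (RA D) N) (δ : N →ₗ[RA D] N),
      LinearMap.range δ = LinearMap.ker δ ∧ RCot (inc D) N ∧
        ¬ RCot (inc D) (LinearMap.ker δ) := by
  have hI1 : Uncountable I := by
    have h0 := hlvl 1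
    have h00 : Uncountable {i // lvl i ≤ 1} := by
      rw [← Cardinal.aleph0_lt_mk_iff, h0, ← Cardinal.aleph_zero, Cardinal.aleph_lt_aleph]
      simp
    exact Function.Injective.uncountable
      (Subtype.val_injective : Function.Injective (Subtype.val : {i // lvl i ≤ 1} → I))
  obtain ⟨J, _, _, i, Φ, δ, hJ, hi, hJJ, hΦ, hδ, ⟨e⟩⟩ :=
    hEMB V (Q × (ℕ →₀ (I →₀ V))) Dm hDm
  let _ : Module (RA D) ((J × J) ⧸ LinearMap.range Φ) :=
    Module.compHom ((J × J) ⧸ LinearMap.range Φ) (prj D)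
  have hN : ∀ (a : RA D) (x : (J × J) ⧸ LinearMap.range Φ), a • x = prj D a • x :=
    fun a x => rfl
  let δ' : ((J × J) ⧸ LinearMap.range Φ) →ₗ[RA D] ((J × J) ⧸ LinearMap.range Φ) :=
    { toFun := δ
      map_add' := δ.map_add
      map_smul' := fun a x => δ.map_smul (prj D a) x }
  refine ⟨(J × J) ⧸ LinearMap.range Φ, inferInstance, inferInstance, δ', ?_, ?_, ?_⟩
  · ext x
    have : x ∈ LinearMap.ker δ ↔ x ∈ LinearMap.range δ := by rw [hδ]
    exact this.symm
  · refine posN hRED hEPU hTR hV D _ hN ?_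
    intro X _ _ hX hEP
    exact smlC hX1 S lvl hV hlvl Q hQ (J × J) Φ hJJ hΦ X hX hEP
  · let _ : Module V (LinearMap.ker δ') := Module.compHom (LinearMap.ker δ') (inc D)
    refine negZ hNP hU0 hRG5 D (LinearMap.ker δ') ?_ ?_
    · intro a x
      rfl
    · intro hs
      refine hsp J i hJ hi ?_
      let e' : LinearMap.ker δ' ≃ₗ[V] (J ⧸ LinearMap.range i) :=
        { toFun := fun x => e.symm ⟨x.1, x.2⟩
          invFun := fun x => ⟨(e x).1, (e x).2⟩
          map_add' := fun x y => e.symm.map_add ⟨x.1, x.2⟩ ⟨y.1, y.2⟩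
          map_smul' := fun v x => e.symm.map_smul v ⟨x.1, x.2⟩
          left_inv := fun x => by
            apply Subtype.ext
            exact congrArg Subtype.val (e.apply_symm_apply ⟨x.1, x.2⟩)
          right_inv := fun x => e.symm_apply_apply x }
      exact spl_congr e' hs

end

theorem fin (hX1 : S_X1.{u}) (hRED : S_RED.{u}) (hRG1 : S_RG1.{u}) (hEPU : S_EPU.{u})
    (hTR : S_TR.{u}) (hNP : S_NP.{u}) (hKIN : S_KIN.{u}) (hU0 : S_U0.{u}) (hSEQ : S_SEQ.{u})
    (hRG5 : S_RG5.{u}) (hEMB : S_EMB.{u}) (hCV : S_CV.{u}) :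
    ∃ (V A : Type u) (_ : CommRing V) (_ : Ring A) (f : V →+* A),
      @Module.Projective V _ A _ (Module.compHom A f) ∧
      ∃ (N : Type u) (_ : AddCommGroup N) (_ : Module A N) (δ : N →ₗ[A] N),
        LinearMap.range δ = LinearMap.ker δ ∧ RCot f N ∧ ¬ RCot f (LinearMap.ker δ) := by
  obtain ⟨I, V, _, S, W, _, _, D, lvl, hV, hlvl⟩ := hCV
  have hI : Infinite I := by
    have h0 := hlvl 0
    have h00 : Infinite {i // lvl i ≤ 0} := by
      rw [Cardinal.infinite_iff, h0]
      exact Cardinal.aleph0_le_aleph _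
    exact Infinite.of_injective (Subtype.val : {i // lvl i ≤ 0} → I) Subtype.val_injective
  obtain ⟨Dm, hDm, hsp⟩ := hSEQ I V S hV
  refine ⟨V, RA D, inferInstance, inferInstance, inc D, ?_, ?_⟩
  · exact hRG1 I V S W D (Module.compHom (RA D) (inc D)) (fun v a => rfl)
  · exact fin1 hX1 hRED hEPU hTR hNP hU0 hRG5 hEMB lvl hV hlvl D _ (hKIN I V S) Dm hDm
      (fun J _ _ i h1 h2 h3 => hsp J i h1 h2 h3)

end Q32.RD
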