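import Pool.Agent.Q32.RD.Sm
set_option autoImplicit false

namespace Q32.RD

universe u

open Cardinal

theorem glu : S_GLU.{u} := by
  classical
  intro V _ B0 B1 M _ _ bd f Bn K G a hmono hB hK hsupp hG ha
  have hmono' : ∀ m n, m ≤ n → Bn m ⊆ Bn n := by
    intro m n h
    induction h with
    | refl => exact subset_rfl
    | step _ ih => exact ih.trans (hmono _)
  let g0 : B1 → M := fun b => G (Nat.find (hB b)) (Finsupp.single b 1) -
    ∑ m ∈ Finset.range (Nat.find (hB b)), a m (bd (Finsupp.single b 1))
  have hg0 : ∀ n, ∀ b ∈ Bn n, g0 b = G n (Finsupp.single b 1) -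
      ∑ m ∈ Finset.range n, a m (bd (Finsupp.single b 1)) := by
    intro n
    induction n with
    | zero =>
      intro b hb
      have : Nat.find (hB b) = 0 := by simpa using hb
      simp only [g0, this]
    | succ n ih =>
      intro b hb
      by_cases hbn : b ∈ Bn n
      · rw [ih b hbn, Finset.sum_range_succ]
        have := ha n b hbn
        rw [← this]
        abel
      · have : Nat.find (hB b) = n + 1 := by
          rw [Nat.find_eq_iff]
          refine ⟨hb, fun m hm hbm => hbn (hmono' m n (by omega) hbm)⟩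
        simp only [g0, this]
  refine ⟨Finsupp.linearCombination V g0, fun x => ?_⟩
  obtain ⟨n, hn⟩ := hK x
  have h1 : Finsupp.linearCombination V g0 (x : B1 →₀ V) =
      (G n - ∑ m ∈ Finset.range n, (a m) ∘ₗ bd) (x : B1 →₀ V) := by
    have h2 : (x : B1 →₀ V) = ∑ b ∈ (x : B1 →₀ V).support,
        (x : B1 →₀ V) b • Finsupp.single b (1 : V) := by
      conv_lhs => rw [← Finsupp.sum_single (x : B1 →₀ V)]
      simp [Finsupp.sum]
    rw [Finsupp.linearCombination_apply, Finsupp.sum]
    conv_rhs => rw [h2]
    rw [map_sum]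
    refine Finset.sum_congr rfl fun b hb => ?_
    rw [hg0 n b (hsupp n x hn b hb), map_smul]
    simp [LinearMap.sub_apply, LinearMap.sum_apply]
  rw [h1]
  have hx : bd (x : B1 →₀ V) = 0 := x.2
  simp [LinearMap.sub_apply, LinearMap.sum_apply, hx, hG n x hn]

end Q32.RD
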