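import Pool.Agent.Q32.RD.Stm
set_option autoImplicit false

namespace Q32.RD

universe u

open Cardinal

theorem tau : S_TAU.{u} := by
  intro V _ X B0 _ _ e π hπ hE
  obtain ⟨s, hs⟩ := hE
  choose g hg using hπ
  refine ⟨e • LinearMap.id - (Finsupp.linearCombination V g) ∘ₗ s ∘ₗ π, ?_, ?_⟩
  · intro x
    have key : ∀ z : X →₀ V, π (Finsupp.linearCombination V g z) =
        Finsupp.linearCombination V (id : X → X) z := by
      intro z
      rw [Finsupp.apply_linearCombination]
      congr 1
      congr 1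
      funext y
      exact hg y
    simp only [LinearMap.sub_apply, LinearMap.smul_apply, LinearMap.id_apply, LinearMap.comp_apply,
      map_sub, map_smul, key, hs, sub_self]
  · intro x hx
    simp [hx]

theorem h0 : S_H0.{u} := by
  intro V _ B0 B1 M _ _ e bd τ h1 h2 D hD
  -- factor D through the range
  let D1 : LinearMap.range bd →ₗ[V] M :=
    (LinearMap.ker bd).liftQ D (fun x hx => by simpa using hD x hx) ∘ₗ
      (bd.quotKerEquivRange.symm : LinearMap.range bd →ₗ[V] _)
  have hD1 : ∀ x, D1 ⟨bd x, ⟨x, rfl⟩⟩ = D x := by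
    intro x
    have : bd.quotKerEquivRange.symm ⟨bd x, ⟨x, rfl⟩⟩ = (LinearMap.ker bd).mkQ x := by
      rw [LinearEquiv.symm_apply_eq]
      rfl
    simp only [D1, LinearMap.comp_apply, LinearEquiv.coe_coe, this]
    simp
  refine ⟨D1 ∘ₗ τ.codRestrict _ h1, fun x => ?_⟩
  simp only [LinearMap.comp_apply]
  have : τ.codRestrict _ h1 (bd x) = ⟨bd (e • x), ⟨e • x, rfl⟩⟩ := by
    apply Subtype.ext
    simp [h2 (bd x) ⟨x, rfl⟩]
  rw [this, hD1, map_smul]

theorem h1 : S_H1.{u} := by
  intro V _ B0 B1 M _ _ e bd τ h1 h2 f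
  choose t ht using fun b => h1 (Finsupp.single b 1)
  have key : ∀ x, bd (Finsupp.linearCombination V t x) = τ x := by
    intro x
    have : bd ∘ₗ Finsupp.linearCombination V t = τ := by
      apply Finsupp.lhom_ext'
      intro b
      apply LinearMap.ext_ring
      simp [ht]
    exact congrArg (fun g => g x) this
  have hk : ∀ y, (e • LinearMap.id - (Finsupp.linearCombination V t) ∘ₗ bd :
      (B1 →₀ V) →ₗ[V] (B1 →₀ V)) y ∈ LinearMap.ker bd := by
    intro y
    simp only [LinearMap.mem_ker, LinearMap.sub_apply, LinearMap.smul_apply, LinearMap.id_apply,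
      LinearMap.comp_apply, map_sub, map_smul, key, h2 (bd y) ⟨y, rfl⟩, sub_self]
  refine ⟨f ∘ₗ LinearMap.codRestrict _ _ hk, fun x => ?_⟩
  have : LinearMap.codRestrict _ _ hk (x : B1 →₀ V) = e • x := by
    apply Subtype.ext
    have hx : bd (x : B1 →₀ V) = 0 := x.2
    simp [hx]
  rw [LinearMap.comp_apply, this, map_smul]

theorem rM_smul {I V : Type u} [CommRing V] (S : Sys I V) {T : Type u} (i : I) (v : V)
    (m : T →₀ V) : S.rM i (v • m) = S.ρ i v • S.rM i m := by
  ext t
  simp [Sys.rM]

theorem tw_single {I V : Type u} [CommRing V] (S : Sys I V) {B T : Type u} (i : I)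
    (g : (B →₀ V) →ₗ[V] (T →₀ V)) (b : B) :
    S.tw i g (Finsupp.single b 1) = S.rM i (g (Finsupp.single b 1)) := by
  simp [Sys.tw]

theorem tw : S_TW.{u} := by
  intro I V _ S B T i g x
  induction x using Finsupp.induction_linear with
  | zero => simp
  | add x y hx hy => simp only [map_add, hx, hy]
  | single b v =>
    have h1 : Finsupp.single b v = v • Finsupp.single b (1 : V) := by simp
    have h2 : S.rM i (Finsupp.single b (1 : V)) = Finsupp.single b 1 := by
      simp [Sys.rM]
    rw [h1, map_smul, rM_smul, rM_smul, h2, map_smul, tw_single]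

theorem rM_comm {I V : Type u} [CommRing V] (S : Sys I V) {T : Type u} (i j : I)
    (m : T →₀ V) : S.rM i (S.rM j m) = S.rM j (S.rM i m) := by
  ext t
  simp [Sys.rM, S.comm i j]

theorem cmp : S_CMP.{u} := by
  intro I V _ S B0 B1 T bd f g hg h0 B i l hB1 hB2 hB3 hB4
  obtain ⟨D', hD'⟩ := h0 i (S.e l • g i - S.e i • g l) (by
    intro x hx
    have h1 := hg i ⟨x, hx⟩
    have h2 := hg l ⟨x, hx⟩
    simp only [LinearMap.sub_apply, LinearMap.smul_apply]
    simp only at h1 h2
    rw [h1, h2, smul_smul, smul_smul, mul_comm, sub_self])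
  refine ⟨S.tw l (S.tw i D'), fun b hb => ?_⟩
  have hi : S.rM i (bd (Finsupp.single b 1)) = bd (Finsupp.single b 1) := by
    have := hB1 b hb
    simpa [Sys.vM] using this
  have hl : S.rM l (bd (Finsupp.single b 1)) = bd (Finsupp.single b 1) := by
    have := hB2 b hb
    simpa [Sys.vM] using this
  have hgi : S.rM l (g i (Finsupp.single b 1)) = g i (Finsupp.single b 1) := by
    have := hB3 b hb
    simpa [Sys.vM] using this
  have hgl : S.rM i (g l (Finsupp.single b 1)) = g l (Finsupp.single b 1) := by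
    have := hB4 b hb
    simpa [Sys.vM] using this
  have e1 : S.tw l (S.tw i D') (bd (Finsupp.single b 1)) =
      S.rM l (S.rM i (D' (bd (Finsupp.single b 1)))) := by
    rw [tw I V S B0 T i D', hi, tw I V S B0 T l, hl]
  rw [e1, hD', tw_single, tw_single]
  simp only [LinearMap.sub_apply, LinearMap.smul_apply, smul_sub, smul_smul, map_sub, rM_smul,
    map_mul, S.rho_e, S.comm l i (S.e l), map_one, one_mul, S.idem, one_smul]
  rw [rM_comm S l i (g i _), hgi, hgl]

end Q32.RD
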