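import Pool.Agent.Q32.RD.Stm
set_option autoImplicit false

/-!
# Project RD: statements, second part
-/

namespace Q32.RD

universe u

open Cardinal

/-- **SML** (small modules). Proof. `B0 = X`, `π = linearCombination id`, `B1 = ker π`,
`bd = linearCombination Subtype.val`; `#(X →₀ V) ≤ #I`, so `#B1 ≤ #I` and `#(B1 →₀ V) ≤ #I`, which
gives `jB`, `jK` (`#I ≥ #(ker bd)`).  TAU, H0, H1 and CLA (with `T = ℕ × I`) show that every linear
`f : ker bd → (ℕ × I →₀ V) ≃ (ℕ →₀ (I →₀ V))` extends; by KIN every `f : ker bd → V ⧸ ker c` extends.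
So X1 applies with `C = (V ⧸ ker c) × (ℕ →₀ (I →₀ V))`. -/
def S_SML : Prop :=
  ∀ (I V : Type u) [CommRing V] (S : Sys I V) (lvl : I → ℕ), #V ≤ #I →
    (∀ n : ℕ, #{i // lvl i ≤ n} = ℵ_ n) →
    ∀ (J : Type u) [AddCommGroup J] [Module V J]
      (Φ : ((V ⧸ RingHom.ker S.c) × (ℕ →₀ (I →₀ V))) →ₗ[V] J),
      Module.Injective V J → Function.Injective Φ →
      ∀ (X : Type u) [AddCommGroup X] [Module V X], #X ≤ #I → (∀ i, EP (S.e i) X) →
        Spl V X (J ⧸ LinearMap.range Φ)

/-- **SEQ** (an exact differential module). Proof. Let `F = I →₀ V`, `i₀ : I`,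
`ε : F → V ⧸ ker c`, `x ↦ [x i₀]`, surjective.  `#F ≤ #I` (`#V ≤ #I`, `I` infinite), so for every
submodule `M ≤ F` there is `q_M : F → F` linear with `range q_M = M` (linear combination of a
surjection `I → M`).  `S_0 = ker ε`, `S_{j+1} = ker q_j`, `q_j = q_{S_j}`.
`Dm (κ, x) = (ε (x 0), (q_j (x (j+1)))_j)`.  `ker Dm = {(κ, x) | ∀ j, x j ∈ S_j} = range Dm`.
Second part: let `i : ker Dm → J` and suppose `Spl V (V ⧸ ker c) (J ⧸ range i)`.
`j₁ : S_1 → ker Dm`, `x ↦ (0, single 1 x)`; extend `i ∘ j₁ : S_1 → J` to `h : F → J` (`J`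
injective).  `h` induces `h' : S_0 → J ⧸ range i` with `h' (q_0 x) = [h x]`.  By
`Spl V (V ⧸ ker c) (J ⧸ range i)` (pushout of `0 → S_0 → F → V ⧸ ker c → 0` along `h'`) `h'` extends to
`H : F → J ⧸ range i`; lift `H` to `H₁ : F → J` (`F` free).  For `x ∈ F`:
`h x - H₁ (q_0 x) ∈ range i`, so it is `i (t x)` with `t : F → ker Dm` linear, `t x = j₁ x` for
`x ∈ S_1 = ker q_0`.  The component `t₁ : F → F` of `t` of index `1` has values in `S_1` and is the
identity on `S_1`; so `q_0 : F → S_0` splits and `S_0` is projective; `ker c` is a retract of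
`S_0 = ker ε` (`v ↦ single i₀ v`, `x ↦ x i₀`), hence projective. -/
def S_SEQ : Prop :=
  ∀ (I V : Type u) [CommRing V] [Infinite I] (S : Sys I V), #V ≤ #I →
    ∃ Dm : ((V ⧸ RingHom.ker S.c) × (ℕ →₀ (I →₀ V))) →ₗ[V]
        ((V ⧸ RingHom.ker S.c) × (ℕ →₀ (I →₀ V))),
      LinearMap.ker Dm = LinearMap.range Dm ∧
      ∀ (J : Type u) [AddCommGroup J] [Module V J] (i : LinearMap.ker Dm →ₗ[V] J),
        Module.Injective V J → Function.Injective i →
        Spl V (V ⧸ RingHom.ker S.c) (J ⧸ LinearMap.range i) → Module.Projective V (RingHom.ker S.c)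

/-- **EMB** (embedding of an exact differential module). Proof. Choose an injective module `J` and
an injective linear `i : ker Dm → J` (enough injectives: `ModuleCat.enoughInjectives`,
`Module.injective_iff_injective_object` or so).  Extend `i` to `i' : C → J`.
`Φ c = (i' c, i (Dm c)) : C → J × J` (note `range Dm = ker Dm`), injective.  `N = (J × J) ⧸ range Φ`,
`δ [(a, b)] = [(b, 0)]` (well defined as `Φ (Dm c) = (i (Dm c), 0)`).  `ker δ = range δ`:
`δ [(a, b)] = 0` iff `(b, 0) = Φ c`, then `c ∈ ker Dm`, `c = Dm c'`, `b = i (Dm c')`, and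
`(a, b) - Φ c' = (a - i' c', 0)`, so `[(a, b)] = δ [(0, a - i' c')]`.  The map `J → ker δ`,
`a ↦ [(a, 0)]`, is surjective with kernel `range i` (`(a, 0) = Φ c` iff `c ∈ ker Dm`, `a = i c`). -/
def S_EMB : Prop :=
  ∀ (V : Type u) [CommRing V] (C : Type u) [AddCommGroup C] [Module V C] (Dm : C →ₗ[V] C),
    LinearMap.ker Dm = LinearMap.range Dm →
    ∃ (J : Type u) (_ : AddCommGroup J) (_ : Module V J) (i : LinearMap.ker Dm →ₗ[V] J)
      (Φ : C →ₗ[V] J × J) (δ : ((J × J) ⧸ LinearMap.range Φ) →ₗ[V] ((J × J) ⧸ LinearMap.range Φ)),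
      Module.Injective V J ∧ Function.Injective i ∧ Module.Injective V (J × J) ∧
      Function.Injective Φ ∧ LinearMap.ker δ = LinearMap.range δ ∧
      Nonempty ((J ⧸ LinearMap.range i) ≃ₗ[V] LinearMap.ker δ)

/-- **RG5** (descent of splitting from the test module to `V ⧸ ker c`).  `U = V` with the
`A`-module structure of U0.  Proof. Let `0 → Z → E → V ⧸ ker c → 0` (`j`, `p`) be an extension of
`V`-modules; make `E` an `A`-module via `prj`.  Let `P = {(w, x) : E × U | p w = [x]}`, an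
`A`-submodule of `E × U` (`a • x ≡ a.fs * x` modulo `ker c`, because `η (a.sn) * c x ∈ ker c`).
`0 → Z → P → U → 0` is exact, so there is an `A`-linear retraction `P → Z`, equivalently an
`A`-linear section `t : U → P`; let `t₁ : U → E` be its first component, `p (t₁ x) = [x]`.  For
`v ∈ ker c` there is `a ∈ A`, `prj a = 0`, with `a • 1 = v` (`a = (0, -L v (R v - 1), 0)`,
`η (L v (R v - 1)) = v (c v - 1) = -v`), so `t₁ v = a • t₁ 1 = 0`.  Hence `t₁` induces
`V ⧸ ker c → E`, a `V`-linear section of `p`; get the retraction. -/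
def S_RG5 : Prop :=
  ∀ (I V : Type u) [CommRing V] (S : Sys I V) (W : Type u) [CommRing W] [Module V W]
    (D : BiDat S W) (m : Module (RA D) V),
    (∀ (a : RA D) (w : V), m.smul a w = a.1.fs * w + D.η a.1.sn * S.c w) →
    ∀ (Z : Type u) [AddCommGroup Z] [Module (RA D) Z] [Module V Z],
      (∀ (a : RA D) (x : Z), a • x = prj D a • x) → @Spl (RA D) _ V Z _ m _ _ →
      Spl V (V ⧸ RingHom.ker S.c) Z

/-- **CV** (the concrete data). Proof. `I = Σ n : ℕ, (ℵ_n).out` (a type of cardinality `ℵ_n` for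
every `n`), `lvl = Sigma.fst`.  `V` is the subalgebra (over `ZMod 2`) of the
`f : (I → Bool) → ZMod 2` that depend only on finitely many coordinates (there is a finset `F` with
`f x = f y` whenever `x`, `y` agree on `F`); `e i x = if x i then 1 else 0`,
`ρ i f x = f (Function.update x i true)`, `c f = ` the constant `f (fun _ => false)`.
`#V ≤ #I`: `V` is a quotient of `Σ F : Finset I, ((F → Bool) → ZMod 2)` (finite fibres).
`W = V ⊗[ZMod 2] V`, `L = includeLeft`, `R = includeRight`, `μ` the multiplication,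
`η = lift id c`; `good`: for `w = a ⊗ b` take `f = b - c b` (`f * (1 - f) = 0` as `V` is Boolean,
`(a ⊗ b - L (a * c b)) = L a * R (b - c b)`), for `0` take `0`; for a sum `w + w'` take the join
`f + f' - f f'`.  `W` is a free `V`-module (base change). -/
def S_CV : Prop :=
  ∃ (I V : Type u) (_ : CommRing V) (S : Sys I V) (W : Type u) (_ : CommRing W) (_ : Module V W)
    (_ : BiDat S W) (lvl : I → ℕ), #V ≤ #I ∧ ∀ n : ℕ, #{i // lvl i ≤ n} = ℵ_ n

end Q32.RD
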