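import Pool.Agent.Q32.RD.Cla
import Pool.Agent.Q32.RD.Stm2
set_option autoImplicit false

namespace Q32.RD

universe u

open Cardinal

theorem fsle {I X V : Type u} [Infinite I] [Zero V] (hX : #X ≤ #I) (hV : #V ≤ #I) :
    #(X →₀ V) ≤ #I := by
  classical
  have h1 : #(X × V) ≤ #I := by
    rw [← Cardinal.mul_def]
    refine (mul_le_mul' hX hV).trans ?_
    rw [Cardinal.mul_eq_self (Cardinal.aleph0_le_mk I)]
  obtain ⟨j⟩ := (Cardinal.le_def _ _).1 h1
  rw [← Cardinal.mk_finset_of_infinite I]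
  refine Cardinal.mk_le_of_injective (f := fun x : X →₀ V => x.graph.map j) ?_
  exact (Finset.map_injective j).comp (Finsupp.graph_injective X V)

theorem smlA {I V : Type u} [CommRing V] (S : Sys I V) (lvl : I → ℕ)
    (hlvl : ∀ n : ℕ, #{i // lvl i ≤ n} = ℵ_ n) {X B0 B1 : Type u} [AddCommGroup X] [Module V X]
    (π : (B0 →₀ V) →ₗ[V] X) (bd : (B1 →₀ V) →ₗ[V] (B0 →₀ V)) (hπ : Function.Surjective π)
    (hbd : LinearMap.range bd = LinearMap.ker π) (hc1 : #B1 ≤ #I)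
    (hc2 : #(LinearMap.ker bd) ≤ #I) (hEP : ∀ i, EP (S.e i) X) (T : Type u)
    (f : LinearMap.ker bd →ₗ[V] (T →₀ V)) :
      ∃ g : (B1 →₀ V) →ₗ[V] (T →₀ V), ∀ x : LinearMap.ker bd, g x = f x := by
  obtain ⟨jB⟩ := (Cardinal.le_def _ _).1 hc1
  obtain ⟨jK⟩ := (Cardinal.le_def _ _).1 hc2
  choose τ hτ1 hτ2 using fun i => tau V X B0 (S.e i) π hπ (hEP i)
  have ht1 : ∀ i x, τ i x ∈ LinearMap.range bd := by
    intro i x
    rw [hbd]
    exact hτ1 i x
  have ht2 : ∀ i, ∀ x ∈ LinearMap.range bd, τ i x = S.e i • x := by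
    intro i x hx
    rw [hbd] at hx
    exact hτ2 i x hx
  exact cla I V S lvl hlvl B0 B1 T bd jB jK jB.injective jK.injective
      (fun i f => h1 V B0 B1 (T →₀ V) (S.e i) bd (τ i) (ht1 i) (ht2 i) f)
      (fun i D hD => h0 V B0 B1 (T →₀ V) (S.e i) bd (τ i) (ht1 i) (ht2 i) D hD) f

theorem smlB {I V : Type u} [CommRing V] (S : Sys I V) (lvl : I → ℕ)
    (hlvl : ∀ n : ℕ, #{i // lvl i ≤ n} = ℵ_ n) {X B0 B1 : Type u} [AddCommGroup X] [Module V X]
    (π : (B0 →₀ V) →ₗ[V] X) (bd : (B1 →₀ V) →ₗ[V] (B0 →₀ V)) (hπ : Function.Surjective π)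
    (hbd : LinearMap.range bd = LinearMap.ker π) (hc1 : #B1 ≤ #I)
    (hc2 : #(LinearMap.ker bd) ≤ #I) (hEP : ∀ i, EP (S.e i) X)
    (Q : Type u) [AddCommGroup Q] [Module V Q] (hQ : Module.Injective V Q)
    (f : LinearMap.ker bd →ₗ[V] (Q × (ℕ →₀ (I →₀ V)))) :
      ∃ g : (B1 →₀ V) →ₗ[V] (Q × (ℕ →₀ (I →₀ V))), ∀ x : LinearMap.ker bd, g x = f x := by
  obtain ⟨E⟩ : Nonempty (((ℕ × I) →₀ V) ≃ₗ[V] (ℕ →₀ (I →₀ V))) := ⟨Finsupp.curryLinearEquiv V⟩
  obtain ⟨g2, hg2⟩ := smlA S lvl hlvl π bd hπ hbd hc1 hc2 hEP (ℕ × I)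
    { toFun := fun x => E.symm (f x).2
      map_add' := fun x y => by simp
      map_smul' := fun v x => by simp }
  obtain ⟨g1, hg1⟩ := hQ.out (LinearMap.ker bd).subtype
    (Submodule.injective_subtype _)
    { toFun := fun x => (f x).1
      map_add' := fun x y => by simp
      map_smul' := fun v x => by simp }
  refine ⟨g1.prod (E.toLinearMap ∘ₗ g2), fun x => ?_⟩
  apply Prod.ext
  · exact hg1 x
  · have h2 : E (g2 x) = (f x).2 := by
      rw [hg2]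
      exact E.apply_symm_apply _
    exact h2

theorem smlC (hX1 : S_X1.{u}) {I V : Type u} [CommRing V] (S : Sys I V) (lvl : I → ℕ)
    (hV : #V ≤ #I) (hlvl : ∀ n : ℕ, #{i // lvl i ≤ n} = ℵ_ n)
    (Q : Type u) [AddCommGroup Q] [Module V Q] (hQ : Module.Injective V Q)
    (J : Type u) [AddCommGroup J] [Module V J] (Φ : (Q × (ℕ →₀ (I →₀ V))) →ₗ[V] J)
    (hJ : Module.Injective V J) (hΦ : Function.Injective Φ)
    (X : Type u) [AddCommGroup X] [Module V X] (hX : #X ≤ #I) (hEP : ∀ i, EP (S.e i) X) :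
    Spl V X (J ⧸ LinearMap.range Φ) := by
  have : Infinite I := by
    have h0 := hlvl 0
    have h00 : Infinite {i // lvl i ≤ 0} := by
      rw [Cardinal.infinite_iff, h0]
      exact Cardinal.aleph0_le_aleph _
    exact Infinite.of_injective (Subtype.val : {i // lvl i ≤ 0} → I) Subtype.val_injective
  obtain ⟨π, hπ⟩ : ∃ π : (X →₀ V) →ₗ[V] X, Function.Surjective π :=
    ⟨Finsupp.linearCombination V (id : X → X), fun x => ⟨Finsupp.single x 1, by simp⟩⟩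
  obtain ⟨bd, hbd⟩ : ∃ bd : (LinearMap.ker π →₀ V) →ₗ[V] (X →₀ V),
      LinearMap.range bd = LinearMap.ker π := by
    refine ⟨Finsupp.linearCombination V (Subtype.val : LinearMap.ker π → (X →₀ V)), ?_⟩
    rw [Finsupp.range_linearCombination, Subtype.range_coe_subtype]
    exact Submodule.span_eq (LinearMap.ker π)
  have hc1 : #(LinearMap.ker π) ≤ #I := (Cardinal.mk_subtype_le _).trans (fsle hX hV)
  have hc2 : #(LinearMap.ker bd) ≤ #I := (Cardinal.mk_subtype_le _).trans (fsle hc1 hV)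
  have h9 := hX1 V X (Q × (ℕ →₀ (I →₀ V))) J X (LinearMap.ker π) π bd Φ hJ hΦ hπ hbd
  apply h9
  intro f
  exact smlB S lvl hlvl π bd hπ hbd hc1 hc2 hEP Q hQ f

end Q32.RD
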