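import Pool.Agent.Q32.RD.Def
set_option autoImplicit false

/-!
# Project RD: the statements of the lemmas, with proofs in the docstrings

Global plan (MP_d608f2_al, relatively cotorsion periodicity fails).  `V` is a Boolean ring with
`ℵ_ω` variables `e i`, `R = V`, `A = RA D = V ⋉ E` (`Def.lean`), `E = E₂ ⊕ E₁`,
`E₂ = ker μ ⊆ W = V ⊗ V`, `E₁ = ⊕ e_i V`.  For every `A`-flat, `V`-projective `U` all `e_i (U/EU)`
are projective (EPU, BG), hence `Ext²_V(U/EU, V^(T)) = 0` (CLA, TAU, X1, RED), and this contradicts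
the periodicity.
-/

namespace Q32.RD

universe u

open Cardinal

/-- **CG** (countably generated submodules of free modules over Boolean rings are projective).
Proof. Write `F = B →₀ V`.
Step 1: for `x ∈ F` there is `ψ : F → V` linear with `ψ x • x = x`: induct on the support; or:
the ideal generated by the finitely many coefficients `x_b` is generated by the idempotent
`v = 1 - ∏ (1 - x_b)`, `v x_b = x_b` for all `b`, and `v = ∑ w_b x_b`; put `ψ y = ∑ w_b y_b`.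
Step 2: there are linear `φ n : F → F` with range in `Y n = span {x 0, …, x (n-1)}` and fixing
`Y n` pointwise: `φ 0 = 0`; given `φ n` put `x' = x n - φ n (x n)`, take `ψ` for `x'` (Step 1) and
`φ (n+1) = φ n + φ' ∘ (1 - φ n)` with `φ' y = ψ y • x'`.  (For `y ∈ Y n`: `(1 - φ n) y = 0`.  For
`x n = φ n (x n) + x'`: `φ n x' = 0`, so `(1 - φ n) x' = x'`, `φ' x' = x'`.)
Step 3: let `X = span (range x) = ⋃ Y n` (increasing).  `X → (ℕ →₀ F)`,
`z ↦ (z - φ n z)_n` (finite support since `φ n z = z` for large `n`), and `(ℕ →₀ F) → X`,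
`(y_n) ↦ ∑ φ (n+1) (y_n)`; the composite is the identity, because
`∑_n φ (n+1) (z - φ n z) = ∑_n (φ (n+1) z - φ n z) = z` (telescope; `φ (n+1) φ n = φ n`).  So `X` is
a retract of a free module. -/
def S_CG : Prop :=
  ∀ (V : Type u) [CommRing V], (∀ v : V, v * v = v) → ∀ (B : Type u) (x : ℕ → (B →₀ V)),
    Module.Projective V (Submodule.span V (Set.range x))

/-- **BG1** (a module over a Boolean ring that is a direct summand of its syzygy is projective).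
Proof. `F = B →₀ V`.  For `B' ⊆ B` let `P' = Finsupp.supported V V B'`, `Y' = π(P')`.  Call `B'`
closed if (c1) `s y ∈ P'` for `y ∈ Y'`, (c2) `r x ∈ Y'` for `x ∈ ker π ∩ P'`.
Zorn (`zorn_le_nonempty₀` on `Set B × (Y →ₗ.[V] F)`) on the pairs `(B', σ)`, `B'` closed,
`σ.domain = Y'`, `π (σ y) = y`; start `(∅, ⊥)`; the union of a chain is `(⋃ B', LinearPMap.sSup)`.
Let `(B', σ)` be maximal, `b₀ ∉ B'`.  Put `ŝ y = (s y).filter (∉ B')`, linear `Y → F`.
Then `ŝ y = 0 ↔ y ∈ Y'` (`⇐` by c1; `⇒`: `s y ∈ ker π ∩ P'`, so `y = r (s y) ∈ Y'` by c2).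
*Claim*: there is a countable `C ∋ b₀` with `B'' = B' ∪ C` closed.  Build `C = ⋃ C_m`,
`C_0 = {b₀}`, `C_{m+1} ⊇ C_m ∪ ⋃_{c ∈ C_m} supp (s (π c))` and a countable set of further elements:
`X_m = ŝ(π(span C_m))` is projective by CG, so the map `θ = ŝ ∘ π : span C_m → X_m` has a section
`τ`; `g_c = c - τ θ c` (`c ∈ C_m`) generate `{x ∈ span C_m : π x ∈ Y'}`; choose `x'_c ∈ P'` with
`π x'_c = π g_c` and `k_c = g_c - x'_c ∈ ker π`, choose `z_c ∈ F` with `π z_c = r k_c`, and put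
`supp z_c` into `C_{m+1}`.  If `k ∈ ker π` is supported on `B' ∪ C_m`, `k = x + x'`, then
`π x ∈ Y'`, `x = ∑ v_c g_c`, `k - ∑ v_c k_c ∈ ker π ∩ P'`, so
`r k ∈ ∑ V r k_c + Y' ⊆ π (supported (B' ∪ C_{m+1}))`.
*Extension of σ*: `X_C = ŝ(π(span C))` is projective (CG), so there is `τ : X_C → span C` with
`ŝ (π (τ x)) = x`; put `σ'' y = τ (ŝ y) + σ (y - π (τ (ŝ y)))` on `Y'' = π(supported B'')`
(`y - π τ ŝ y ∈ Y'` because `ŝ` kills it).  It extends `σ`, contradiction.  So `B' = univ` and `σ`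
is a section of `π` on all of `Y`; hence `Y` is projective. -/
def S_BG1 : Prop :=
  ∀ (V : Type u) [CommRing V], (∀ v : V, v * v = v) →
    ∀ (B Y : Type u) [AddCommGroup Y] [Module V Y] (π : (B →₀ V) →ₗ[V] Y)
      (s : Y →ₗ[V] (B →₀ V)) (hs : ∀ y, s y ∈ LinearMap.ker π) (r : LinearMap.ker π →ₗ[V] Y),
      Function.Surjective π → (∀ y, r ⟨s y, hs y⟩ = y) → Module.Projective V Y

/-- **BG** (version with an idempotent and a projective `P`).
Proof. Let `ρ : (P →₀ V) → P` be `linearCombination id` and `σ` a section of it (`P` projective).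
`Y_e = range (e •)` (the submodule of the `y` with `e y = y`).  Apply BG1 to `B = P`,
`Y_e`, `x ↦ e π (ρ x)`, `y ↦ σ (s y)` and `r_e x = e • r (e ρ x)` (if `e π ρ x = 0` then
`π (e ρ x) = 0`).  Here `r_e (σ s y) = e r (e s y) = e r (s (e y)) = e e e y = y`.  So `Y_e` is
projective, which gives `EP e Y`: `Y → Y_e → (Y_e →₀ V) → (Y →₀ V)`. -/
def S_BG : Prop :=
  ∀ (V : Type u) [CommRing V], (∀ v : V, v * v = v) →
    ∀ (P Y : Type u) [AddCommGroup P] [Module V P] [AddCommGroup Y] [Module V Y]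
      (π : P →ₗ[V] Y) (s : Y →ₗ[V] P) (hs : ∀ y, s y ∈ LinearMap.ker π)
      (r : LinearMap.ker π →ₗ[V] Y) (e : V),
      Module.Projective V P → Function.Surjective π → (∀ y, r ⟨s y, hs y⟩ = e • y) → EP e Y

/-- **TAU**. Proof. Let `s` be the map of `EP e X`; let `σ : X → (B0 →₀ V)` be `s` followed by the
linear map `(X →₀ V) → (B0 →₀ V)` sending the basis element of `x` to a chosen preimage of `x`
under `π`; then `π (σ x) = e • x`.  Put `τ x = e • x - σ (π x)`. Then `π (τ x) = 0` and `τ x = e • x`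
for `x ∈ ker π`. -/
def S_TAU : Prop :=
  ∀ (V : Type u) [CommRing V] (X B0 : Type u) [AddCommGroup X] [Module V X] (e : V)
    (π : (B0 →₀ V) →ₗ[V] X), Function.Surjective π → EP e X →
    ∃ τ : (B0 →₀ V) →ₗ[V] (B0 →₀ V), (∀ x, π (τ x) = 0) ∧ ∀ x, π x = 0 → τ x = e • x

/-- **H0**, from `τ`. Proof. `D` factors through the range of `∂`, `D = D₁ ∘ ∂`; put
`D' = D₁ ∘ τ`; `D' (∂ x) = D₁ (e • ∂ x) = e • D x`. -/
def S_H0 : Prop :=
  ∀ (V : Type u) [CommRing V] (B0 B1 M : Type u) [AddCommGroup M] [Module V M] (e : V)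
    (bd : (B1 →₀ V) →ₗ[V] (B0 →₀ V)) (τ : (B0 →₀ V) →ₗ[V] (B0 →₀ V)),
    (∀ x, τ x ∈ LinearMap.range bd) → (∀ x ∈ LinearMap.range bd, τ x = e • x) →
    ∀ D : (B1 →₀ V) →ₗ[V] M, (∀ x ∈ LinearMap.ker bd, D x = 0) →
      ∃ D' : (B0 →₀ V) →ₗ[V] M, ∀ x, D' (bd x) = e • D x

/-- **H1**, from `τ`. Proof. Lift `τ` to `τ' : (B0 →₀ V) → (B1 →₀ V)`, `∂ τ' = τ` (free module);
`τ₁ y = e • y - τ' (∂ y) ∈ ker ∂`, `τ₁ y = e • y` for `y ∈ ker ∂`; `g = f ∘ τ₁`. -/
def S_H1 : Prop :=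
  ∀ (V : Type u) [CommRing V] (B0 B1 M : Type u) [AddCommGroup M] [Module V M] (e : V)
    (bd : (B1 →₀ V) →ₗ[V] (B0 →₀ V)) (τ : (B0 →₀ V) →ₗ[V] (B0 →₀ V)),
    (∀ x, τ x ∈ LinearMap.range bd) → (∀ x ∈ LinearMap.range bd, τ x = e • x) →
    ∀ f : LinearMap.ker bd →ₗ[V] M, ∃ g : (B1 →₀ V) →ₗ[V] M, ∀ x : LinearMap.ker bd, g x = e • f x

/-- **TW**. Proof. Both sides are additive in `x`; check on `single b v`:
`rM i (g (single b v)) = rM i (v • g (single b 1)) = ρ i v • rM i (g (single b 1))`. -/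
def S_TW : Prop :=
  ∀ (I V : Type u) [CommRing V] (S : Sys I V) (B T : Type u) (i : I)
    (g : (B →₀ V) →ₗ[V] (T →₀ V)) (x : B →₀ V), S.rM i (g x) = S.tw i g (S.rM i x)

/-- **CMP** (comparison). Proof. `D = e l • g i - e i • g l` kills `ker ∂` (both terms are
`e l e i f` there).  By (h0) for `i` there is `D'` with `D' (∂ x) = e i • D x`.  Take
`a = tw l (tw i D')`, i.e. `a (single c 1) = rM l (rM i (D' (single c 1)))`.  For `b ∈ B`:
`a (∂ b) = a (rM l (rM i (∂ b))) = rM l (rM i (D' (∂ b)))` (TW twice)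
`= rM l (rM i (e i e l g_i b - e i g_l b)) = rM l (rM i (g_i b)) - rM l (rM i (g_l b))` (as
`ρ i (e i) = 1`, `ρ l (e l) = 1`, also `ρ l (ρ i (e i)) = 1` and `ρ l (ρ i (e l)) = ρ i (ρ l (e l)) = 1`,
and `e i * e i = e i`)
`= rM i (g_i b) - rM l (g_l b)` (`rM` commute, `l ∉ vM (g_i b)`, `i ∉ vM (g_l b)`). -/
def S_CMP : Prop :=
  ∀ (I V : Type u) [CommRing V] (S : Sys I V) (B0 B1 T : Type u)
    (bd : (B1 →₀ V) →ₗ[V] (B0 →₀ V)) (f : LinearMap.ker bd →ₗ[V] (T →₀ V))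
    (g : I → (B1 →₀ V) →ₗ[V] (T →₀ V)),
    (∀ i, ∀ x : LinearMap.ker bd, g i x = S.e i • f x) →
    (∀ i, ∀ D : (B1 →₀ V) →ₗ[V] (T →₀ V), (∀ x ∈ LinearMap.ker bd, D x = 0) →
      ∃ D' : (B0 →₀ V) →ₗ[V] (T →₀ V), ∀ x, D' (bd x) = S.e i • D x) →
    ∀ (B : Set B1) (i l : I), (∀ b ∈ B, i ∉ S.vM (bd (Finsupp.single b 1))) →
      (∀ b ∈ B, l ∉ S.vM (bd (Finsupp.single b 1))) →
      (∀ b ∈ B, l ∉ S.vM (g i (Finsupp.single b 1))) →
      (∀ b ∈ B, i ∉ S.vM (g l (Finsupp.single b 1))) →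
      ∃ a : (B0 →₀ V) →ₗ[V] (T →₀ V), ∀ b ∈ B,
        S.tw i (g i) (Finsupp.single b 1) - S.tw l (g l) (Finsupp.single b 1) =
          a (bd (Finsupp.single b 1))

/-- **GLU** (gluing). Proof. For `b : B1` let `n b` be the least `n` with `b ∈ Bn n`; define
`g` on the basis by `g b = G (n b) b - ∑_{m < n b} a m (∂ b)`.  By induction on `n - n b`:
`g b = G n b - ∑_{m < n} a m (∂ b)` for all `b ∈ Bn n`.  For `x ∈ K n` (supported on `Bn n`) we get
`g x = G n x - ∑_{m < n} a m (∂ x) = f x - 0`. -/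
def S_GLU : Prop :=
  ∀ (V : Type u) [CommRing V] (B0 B1 M : Type u) [AddCommGroup M] [Module V M]
    (bd : (B1 →₀ V) →ₗ[V] (B0 →₀ V)) (f : LinearMap.ker bd →ₗ[V] M)
    (Bn : ℕ → Set B1) (K : ℕ → Set (LinearMap.ker bd)) (G : ℕ → (B1 →₀ V) →ₗ[V] M)
    (a : ℕ → (B0 →₀ V) →ₗ[V] M),
    (∀ n, Bn n ⊆ Bn (n + 1)) → (∀ b, ∃ n, b ∈ Bn n) → (∀ x, ∃ n, x ∈ K n) →
    (∀ n, ∀ x ∈ K n, ∀ b ∈ (x : B1 →₀ V).support, b ∈ Bn n) →
    (∀ n, ∀ x ∈ K n, G n x = f x) →
    (∀ n, ∀ b ∈ Bn n, G (n + 1) (Finsupp.single b 1) - G n (Finsupp.single b 1) =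
      a n (bd (Finsupp.single b 1))) →
    ∃ g : (B1 →₀ V) →ₗ[V] M, ∀ x : LinearMap.ker bd, g x = f x

/-- **CLA** (`Ext² = 0` for small modules).
Proof. `vM m` is finite for every `m` (finite support, `S.fin`).  Injections `jB : B1 → I`,
`jK : ker ∂ → I`.  For `n : ℕ` put `K n = {x | lvl (jK x) ≤ n}`,
`Bn n = {b | lvl (jB b) ≤ n} ∪ ⋃_{x ∈ K n} supp x`; both have cardinality `≤ ℵ_n`, are increasing
and exhaust.  `Bad n = ⋃_{x ∈ K n} (vM x ∪ vM (f x)) ∪ ⋃_{b ∈ Bn n} vM (∂ b)` has cardinality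
`≤ ℵ_n`.  By (h1) choose `g i` with `g i x = e i • f x` on `ker ∂`, and
`Sn n i = ⋃_{b ∈ Bn n} vM (g i b)`, `≤ ℵ_n`, increasing in `n`.  `L n = {i | lvl i ≤ n + 1}`, of
cardinality `ℵ_{n+1}`, increasing.  Choose `i_n ∉ Bad n ∪ ⋃_{l ∈ L n} Sn n l` (this set has
cardinality `≤ ℵ_{n+1} < ℵ_{n+2} ≤ #I`).  `G n = tw i_n (g i_n)`.  For `x ∈ K n`:
`G n x = G n (rM i_n x) = rM i_n (g i_n x) = rM i_n (e_{i_n} • f x) = rM i_n (f x) = f x`.
Given `n`, choose `l ∈ L n` outside `Sn n i_n ∪ Sn n i_{n+1} ∪ Bad n` (`≤ ℵ_n < ℵ_{n+1}`); CMP for the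
set `Bn n` and the pairs `(i_n, l)`, `(i_{n+1}, l)` (`i_{n+1} ∉ Sn (n+1) l ⊇ Sn n l`,
`i_{n+1} ∉ Bad (n+1) ⊇ Bad n`) gives `a n` with `G (n+1) b - G n b = a n (∂ b)` for `b ∈ Bn n`.
Apply GLU. -/
def S_CLA : Prop :=
  ∀ (I V : Type u) [CommRing V] (S : Sys I V) (lvl : I → ℕ),
    (∀ n : ℕ, #{i // lvl i ≤ n} = ℵ_ n) → ∀ (B0 B1 T : Type u)
    (bd : (B1 →₀ V) →ₗ[V] (B0 →₀ V)) (jB : B1 → I) (jK : LinearMap.ker bd → I),
    Function.Injective jB → Function.Injective jK →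
    (∀ i, ∀ f : LinearMap.ker bd →ₗ[V] (T →₀ V), ∃ g : (B1 →₀ V) →ₗ[V] (T →₀ V),
      ∀ x : LinearMap.ker bd, g x = S.e i • f x) →
    (∀ i, ∀ D : (B1 →₀ V) →ₗ[V] (T →₀ V), (∀ x ∈ LinearMap.ker bd, D x = 0) →
      ∃ D' : (B0 →₀ V) →ₗ[V] (T →₀ V), ∀ x, D' (bd x) = S.e i • D x) →
    ∀ f : LinearMap.ker bd →ₗ[V] (T →₀ V),
      ∃ g : (B1 →₀ V) →ₗ[V] (T →₀ V), ∀ x : LinearMap.ker bd, g x = f x

/-- **X1** (from `Ext²(X, C) = 0` to `Ext¹(X, J/C) = 0`). Proof. `p : E → X` onto with kernel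
`≅ J ⧸ range Φ` via `i`.  Lift `π : P0 → X` to `h0 : P0 → E` (`P0` free, `p` onto).  `h0 ∘ ∂` has
image in `ker p`, so it is `i ∘ h'` with `h' : P1 → J ⧸ range Φ`, lift `h'` to `h1 : P1 → J` (`P1`
free).  On `ker ∂`, `h1` has values in `range Φ`; write `h1 = Φ ∘ f`, extend `f` to `g : P1 → C`.
`h1 - Φ g` kills `ker ∂`, so it factors as `k ∘ ∂` with `k : range ∂ = ker π → J`; extend `k` to
`k' : P0 → J` (`J` injective).  `h0 - i ∘ mkQ ∘ k'` kills `ker π = range ∂`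
(`h0 ∂ y = i [h1 y] = i [h1 y - Φ g y] = i [k' ∂ y]`), so it induces `t : X → E` with `p ∘ t = id`.
The retraction is `E → J ⧸ range Φ`, `w ↦ i⁻¹ (w - t (p w))`. -/
def S_X1 : Prop :=
  ∀ (V : Type u) [CommRing V] (X C J B0 B1 : Type u) [AddCommGroup X] [Module V X]
    [AddCommGroup C] [Module V C] [AddCommGroup J] [Module V J]
    (π : (B0 →₀ V) →ₗ[V] X) (bd : (B1 →₀ V) →ₗ[V] (B0 →₀ V)) (Φ : C →ₗ[V] J),
    Module.Injective V J → Function.Injective Φ → Function.Surjective π →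
    LinearMap.range bd = LinearMap.ker π →
    (∀ f : LinearMap.ker bd →ₗ[V] C, ∃ g : (B1 →₀ V) →ₗ[V] C, ∀ x : LinearMap.ker bd, g x = f x) →
    Spl V X (J ⧸ LinearMap.range Φ)

/-- **RED** (reduction to modules of cardinality `≤ #I`).
Proof. Let `s i : X → (X →₀ V)` be the maps of `EP (e i) X`.  Call a submodule `N` closed if
`supp (s i x) ⊆ N` for all `x ∈ N` and `i`.  Sums and unions of chains of closed submodules are
closed.  If `N ≤ N'` are closed then `EP (e i) (N' / N)` (`N.submoduleOf N'`): restrict `s i` to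
`N' → (N' →₀ V)`, compose with `mapDomain` to `(N'/N →₀ V)` and delete the coefficient of `0`
(`Finsupp.filter (· ≠ 0)` or `erase 0`); this kills `N`, since `s i x` for `x ∈ N` is supported on
`N`; the linear combination does not change.
Every `x₀ ∈ X` lies in a closed submodule `Z` with `#Z ≤ #I`: `T_0 = {x₀}`,
`T_{m+1} = span V T_m ∪ ⋃_{x ∈ span T_m, i} supp (s i x)`, `Z = ⋃ T_m` (`#V ≤ #I`, `I` infinite).
Let `i : N → E`, `p : E → X` be an extension (inj, surj, exact).  Zorn for the `σ : X →ₗ.[V] E`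
with closed domain and `p (σ x) = x`.  Let `σ` be maximal with domain `D ≠ ⊤`; `x₀ ∉ D`, `Z` as
above, `D' = D ⊔ Z` closed, `#(D'/D) ≤ #Z ≤ #I`, so `Spl V (D'/D) N`.  Let `W' = p⁻¹(D')` and
`Q = W' ⧸ σ(D)`; `0 → N → Q → D'/D → 0` is exact, so there is a retraction and hence a linear
`ψ : W' → N` with `ψ (i n) = n`, `ψ (σ d) = 0`.  For `x ∈ D'` put `σ' x = w - i (ψ w)` for any
`w` with `p w = x` (independent of `w`); it extends `σ`.  Contradiction; so `D = ⊤` and `p` has a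
section, which gives the retraction. -/
def S_RED : Prop :=
  ∀ (I V : Type u) [CommRing V] [Infinite I] (S : Sys I V), #V ≤ #I →
    ∀ (N : Type u) [AddCommGroup N] [Module V N],
    (∀ (X : Type u) [AddCommGroup X] [Module V X], #X ≤ #I → (∀ i, EP (S.e i) X) → Spl V X N) →
    ∀ (X : Type u) [AddCommGroup X] [Module V X], (∀ i, EP (S.e i) X) → Spl V X N

/-- **RG1**. Proof. `A` is (additively) a retract of `V × W × (I →₀ V)`: the retraction is
`(v, w, x) ↦ (v, w - L (μ w), (e i * x i)_i)`, which is `V`-linear.  `V`, `W`, `I →₀ V` are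
projective. -/
def S_RG1 : Prop :=
  ∀ (I V : Type u) [CommRing V] (S : Sys I V) (W : Type u) [CommRing W] [Module V W]
    (D : BiDat S W) (_ : Module V (RA D)), (∀ (v : V) (a : RA D), v • a = inc D v * a) →
    Module.Projective V (RA D)

/-- **EPU**. Proof. `A = RA D`, `EU = ES D U`.  Let `ε = (0, 0, single i (e i)) ∈ A`.
`s : U/EU → U`, `[x] ↦ ε x` is well defined (`ε a = 0` if `prj a = 0`) and `V`-linear
(`ε * inc v = inc v * ε`).  `r : EU → U/EU`, `∑ a_l x_l ↦ ∑ (a_l).th i • [x_l]` (`prj a_l = 0`) is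
well defined: if `∑ a_l x_l = 0` then by flatness `x_l = ∑_j b_{lj} y_j`, `∑_l a_l b_{lj} = 0`, and
`∑_l (a_l).th i • [x_l] = ∑_j ∑_l (a_l).th i * prj b_{lj} • [y_j] = ∑_j (∑_l a_l b_{lj}).th i • [y_j]
= 0`.  `r (s [x]) = e i • [x]`.  Apply BG to `P = U`, `Y = U ⧸ EU`, `π = mkQ`. -/
def S_EPU : Prop :=
  ∀ (I V : Type u) [CommRing V] (S : Sys I V) (W : Type u) [CommRing W] [Module V W]
    (D : BiDat S W) (U : Type u) [AddCommGroup U] [Module (RA D) U] [Module V U],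
    (∀ (v : V) (x : U), v • x = inc D v • x) → IsFlat (RA D) U → Module.Projective V U →
    ∀ i, EP (S.e i) (U ⧸ ES D U)

/-- **TR** (transfer). Proof. Let `j : N → E`, `p : E → U` be an extension of `A`-modules; give `E`
the `V`-module structure via `inc`.  `N → E ⧸ ES D E` is injective: if `j n ∈ ES D E`,
`j n = ∑ a_l w_l` with `prj a_l = 0`, then `∑ a_l p(w_l) = 0`, by flatness
`p w_l = ∑_j b_{lj} y_j`, `∑_l a_l b_{lj} = 0`; lift `y_j` to `w'_j`, `w_l = ∑_j b_{lj} w'_j + j n_l`,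
so `j n = ∑ a_l j n_l = 0` (`a_l` acts by `prj a_l = 0` on `N`).  So
`0 → N → E ⧸ ES D E → U ⧸ ES D U → 0` is exact; take a retraction and compose with `mkQ`. -/
def S_TR : Prop :=
  ∀ (I V : Type u) [CommRing V] (S : Sys I V) (W : Type u) [CommRing W] [Module V W]
    (D : BiDat S W) (U N : Type u) [AddCommGroup U] [Module (RA D) U] [Module V U]
    [AddCommGroup N] [Module (RA D) N] [Module V N],
    (∀ (v : V) (x : U), v • x = inc D v • x) → (∀ (a : RA D) (x : N), a • x = prj D a • x) →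
    IsFlat (RA D) U → Spl V (U ⧸ ES D U) N → Spl (RA D) U N

/-- **U0** (the test module).  `A` acts on `V` by `a • w = a.fs * w + η (a.sn) * c w`.
Flatness: if `∑ r_l x_l = 0`, choose `a_l` with `x_l = a_l • 1` (`a_l = inc x_l`), so
`a = ∑ r_l a_l` kills `1`, i.e. `a.fs + η a.sn = 0`.  Find `u ∈ A` with `u • 1 = 0`, `a u = a`:
`u = (f, L f (R f - 1), 0)` where `c f = 0`, `a.fs * f = a.fs`, `f * a.th i = a.th i`,
`(a.sn - L (η a.sn)) R (1 - f) = 0` (take the join `1 - ∏ (1 - f_j)` of suitable elements: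
`a.fs` (note `c a.fs = c (η a.sn) = c (μ a.sn) = 0`), the `e i` with `a.th i ≠ 0`, and the `f` of
`D.good`; all conditions are preserved when `f` is enlarged).  Then
`b_l = a_l (1 - u)`, one `y = 1`. -/
def S_U0 : Prop :=
  ∀ (I V : Type u) [CommRing V] (S : Sys I V) (W : Type u) [CommRing W] [Module V W]
    (D : BiDat S W), ∃ m : Module (RA D) V,
      (∀ (a : RA D) (w : V), m.smul a w = a.1.fs * w + D.η a.1.sn * S.c w) ∧
      @IsFlat (RA D) _ V _ m

/-- **NP** (`ker c` is not projective). Proof. Note: if `v ≠ 0` and `ρ i v = v` then `e i * v ≠ 0`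
(apply `ρ i`).  Let `s : ker c → (ker c →₀ V)` be a section of the linear combination map,
`φ_g x = s x g`.  If infinitely many `g` have `φ_g ≠ 0`, choose distinct `g_n` and `x_n` with
`φ_{g_n} x_n ≠ 0`; `I` is uncountable, so there is `i` with `ρ i (φ_{g_n} x_n) = φ_{g_n} x_n` for
all `n`; then `x_n * φ_{g_n} (e i) = e i * φ_{g_n} x_n ≠ 0`, so `s (e i)` has infinite support.
So only finitely many `g` matter; choose `i` with `ρ i g = g` for all of them;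
`e i = ∑ φ_g (e i) g`; apply `c ∘ ρ i`: `1 = ∑ _ * c g = 0`. -/
def S_NP : Prop :=
  ∀ (I V : Type u) [CommRing V] [Uncountable I] (S : Sys I V),
    ¬ Module.Projective V (RingHom.ker S.c)

/-- **KIN** (`V / ker c` is injective). Proof. Baer's criterion (`Module.Baer.injective`): `c v` is
`0` or `1`; `v` acts on `V/ker c` by `c v`.  Let `h : 𝔞 → V/ker c`.  If `c a₀ = 1` for some
`a₀ ∈ 𝔞` then `h a = a₀ • h a = h (a₀ a) = a • h a₀`; extend by `v ↦ v • h a₀`.  Otherwise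
`h a = h (a a) = a • h a = 0`. -/
def S_KIN : Prop :=
  ∀ (I V : Type u) [CommRing V] (S : Sys I V), Module.Injective V (V ⧸ RingHom.ker S.c)

end Q32.RD
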